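import Mathlib

/-!
# Reduction of positive definite binary and ternary integral forms
Every positive definite ternary integral form (integral matrix) of determinant one only takes values
that are sums of three squares.
-/

set_option autoImplicit false

namespace Pool.Agent.Lib.MP_be2ccc_co

/-- choice of a shift making the linear coefficient small -/
lemma exists_shift (a b : ℤ) (ha : 0 < a) : ∃ x : ℤ, 4 * (a * x + b) ^ 2 ≤ a ^ 2 := by
  refine ⟨-((2 * b + a) / (2 * a)), ?_⟩
  set q := (2 * b + a) / (2 * a) with hq
  have h1 : 2 * a * q ≤ 2 * b + a := Int.mul_ediv_self_le (by omega)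
  have h2 : 2 * b + a < 2 * a * q + 2 * a := by
    have := Int.lt_mul_ediv_self_add (x := 2 * b + a) (k := 2 * a) (by omega)
    linarith
  have h3 : -a ≤ 2 * (a * (-q) + b) := by linarith
  have h4 : 2 * (a * (-q) + b) ≤ a := by linarith
  nlinarith only [h1, h2, mul_nonneg (by linarith : (0:ℤ) ≤ a - 2 * (a * (-q) + b)) (by linarith : (0:ℤ) ≤ a + 2 * (a * (-q) + b))]

/-- values of a positive definite binary form of determinant one are sums of two squares -/
lemma binary_one : ∀ (N : ℕ) (A B C : ℤ), 0 < A → A ≤ N → A * C - B ^ 2 = 1 →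
    ∀ y z : ℤ, ∃ u v : ℤ, A * y ^ 2 + 2 * B * y * z + C * z ^ 2 = u ^ 2 + v ^ 2 := by
  intro N
  induction N with
  | zero => intro A B C h1 h2; exfalso; simp at h2; omega
  | succ N ih =>
    intro A B C hA hN hD y z
    by_cases h1 : A = 1
    · subst h1
      refine ⟨y + B * z, z, ?_⟩
      have : C = 1 + B ^ 2 := by linarith
      subst this; ring
    · have hA2 : 2 ≤ A := by omega
      obtain ⟨x, hx⟩ := exists_shift A B hA
      -- new first coefficient V = A x^2 + 2 B x + C
      set V := A * x ^ 2 + 2 * B * x + C with hV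
      have hAV : A * V = (A * x + B) ^ 2 + 1 := by rw [hV]; nlinarith only [hD]
      have hVpos : 0 < V := by
        by_contra hcon
        push Not at hcon
        nlinarith only [hA, hA2, hD, hcon, sq_nonneg (A * x + B)]
      have hVlt : V < A := by
        by_contra hcon
        push Not at hcon
        nlinarith only [hA, hA2, hD, hcon, hx]
      have hdet : V * A - (A * x + B) ^ 2 = 1 := by linarith
      obtain ⟨u, v, huv⟩ := ih V (A * x + B) A hVpos (by push_cast at hN ⊢; omega) hdet z (y - x * z)
      refine ⟨u, v, ?_⟩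
      rw [← huv, hV]; ring

/-- a positive definite binary form of determinant `D` primitively represents some `g` with
`3 g² ≤ 4 D`. -/
lemma binary_min : ∀ (N : ℕ) (A B C D : ℤ), 0 < A → A ≤ N → 0 < D → A * C - B ^ 2 = D →
    ∃ p r q s : ℤ, p * s - q * r = 1 ∧ 0 < A * p ^ 2 + 2 * B * p * r + C * r ^ 2 ∧
      3 * (A * p ^ 2 + 2 * B * p * r + C * r ^ 2) ^ 2 ≤ 4 * D := by
  intro N
  induction N with
  | zero => intro A B C D h1 h2; exfalso; simp at h2; omega
  | succ N ih =>
    intro A B C D hA hN hD0 hD
    by_cases h1 : 3 * A ^ 2 ≤ 4 * D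
    · refine ⟨1, 0, 0, 1, by ring, by simpa using hA, ?_⟩
      have : A * 1 ^ 2 + 2 * B * 1 * 0 + C * 0 ^ 2 = A := by ring
      rw [this]; exact h1
    · push Not at h1
      obtain ⟨x, hx⟩ := exists_shift A B hA
      set V := A * x ^ 2 + 2 * B * x + C with hV
      have hAV : A * V = (A * x + B) ^ 2 + D := by rw [hV]; nlinarith only [hD]
      have hVpos : 0 < V := by
        by_contra hcon
        push Not at hcon
        nlinarith only [hA, hD, hD0, hcon, sq_nonneg (A * x + B)]
      have hVlt : V < A := by
        by_contra hcon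
        push Not at hcon
        nlinarith only [h1, hA, hD, hcon, hx]
      have hdet : V * A - (A * x + B) ^ 2 = D := by linarith
      obtain ⟨p, r, q, s, h2, h3, h4⟩ := ih V (A * x + B) A D hVpos (by push_cast at hN ⊢; omega) hD0 hdet
      -- new form in variables (Y, Z): y = x Y + Z, z = Y
      refine ⟨x * p + r, p, -(x * q + s), -q, ?_, ?_, ?_⟩
      · linear_combination h2
      · have : A * (x * p + r) ^ 2 + 2 * B * (x * p + r) * p + C * p ^ 2
            = V * p ^ 2 + 2 * (A * x + B) * p * r + A * r ^ 2 := by rw [hV]; ring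
        rw [this]; exact h3
      · have : A * (x * p + r) ^ 2 + 2 * B * (x * p + r) * p + C * p ^ 2
            = V * p ^ 2 + 2 * (A * x + B) * p * r + A * r ^ 2 := by rw [hV]; ring
        rw [this]; exact h4

/-- values of a positive definite ternary form of determinant one are sums of three squares -/
lemma ternary_one : ∀ (N : ℕ) (a b c d e f : ℤ), 0 < a → a ≤ N → 0 < a * d - b ^ 2 →
    a * (d * f - e ^ 2) - b * (b * f - e * c) + c * (b * e - d * c) = 1 →
    ∀ x y z : ℤ, ∃ u v w : ℤ,
      a * x ^ 2 + 2 * b * x * y + 2 * c * x * z + d * y ^ 2 + 2 * e * y * z + f * z ^ 2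
        = u ^ 2 + v ^ 2 + w ^ 2 := by
  intro N
  induction N with
  | zero => intro a b c d e f h1 h2; exfalso; simp at h2; omega
  | succ N ih =>
    intro a b c d e f ha hN hm hdet x y z
    have hG : (a * d - b ^ 2) * (a * f - c ^ 2) - (a * e - b * c) ^ 2 = a := by
      linear_combination a * hdet
    by_cases h1 : a = 1
    · subst h1
      have hG' : (d - b ^ 2) * (f - c ^ 2) - (e - b * c) ^ 2 = 1 := by linarith
      have hm' : 0 < d - b ^ 2 := by linarith
      obtain ⟨u, v, huv⟩ := binary_one (d - b ^ 2).toNat (d - b ^ 2) (e - b * c) (f - c ^ 2) hm'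
        (Int.self_le_toNat _) hG' y z
      refine ⟨x + b * y + c * z, u, v, ?_⟩
      linear_combination huv
    · have ha2 : 2 ≤ a := by omega
      obtain ⟨p, r, q, s, hps, hg0, hg⟩ := binary_min (a * d - b ^ 2).toNat (a * d - b ^ 2)
        (a * e - b * c) (a * f - c ^ 2) a hm (Int.self_le_toNat _) ha hG
      set g := (a * d - b ^ 2) * p ^ 2 + 2 * (a * e - b * c) * p * r + (a * f - c ^ 2) * r ^ 2 with hgdef
      obtain ⟨x0, hx0⟩ := exists_shift a (b * p + c * r) ha
      set V := a * x0 ^ 2 + 2 * b * x0 * p + 2 * c * x0 * r + d * p ^ 2 + 2 * e * p * r + f * r ^ 2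
        with hV
      have haV : a * V = (a * x0 + (b * p + c * r)) ^ 2 + g := by rw [hV, hgdef]; ring
      have hVpos : 0 < V := by
        by_contra hcon
        push Not at hcon
        nlinarith only [ha, ha2, hcon, hg0, sq_nonneg (a * x0 + (b * p + c * r))]
      have hg2 : 4 * g < 3 * a ^ 2 := by
        by_contra hcon
        push Not at hcon
        have h3 : (3 * a ^ 2) ^ 2 ≤ (4 * g) ^ 2 := by
          apply pow_le_pow_left₀ (by positivity) hcon
        have h4 : 9 * a ^ 4 * 3 ≤ 64 * a := by nlinarith only [h3, hg]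
        have h5 : a ^ 4 = a * a ^ 3 := by ring
        have h6 : 8 ≤ a ^ 3 := by
          have := pow_le_pow_left₀ (by norm_num : (0:ℤ) ≤ 2) ha2 3
          linarith
        nlinarith only [h3, h6, ha, ha2, hg]
      have hVlt : V < a := by
        by_contra hcon
        push Not at hcon
        nlinarith only [ha, hcon, hg2, hx0]
      -- new basis c1 = (x0,p,r), c2 = (1,0,0), c3 = (0,q,s)
      set b' := a * x0 + b * p + c * r with hb'
      set c' := b * x0 * q + c * x0 * s + d * p * q + e * (p * s + q * r) + f * r * s with hc'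
      set e' := b * q + c * s with he'
      set f' := d * q ^ 2 + 2 * e * q * s + f * s ^ 2 with hf'
      have hm2 : 0 < V * a - b' ^ 2 := by
        have : V * a - b' ^ 2 = g := by rw [hb']; linarith
        rw [this]; exact hg0
      have hdet2 : V * (a * f' - e' ^ 2) - b' * (b' * f' - e' * c') + c' * (b' * e' - a * c') = 1 := by
        have : V * (a * f' - e' ^ 2) - b' * (b' * f' - e' * c') + c' * (b' * e' - a * c')
            = (a * (d * f - e ^ 2) - b * (b * f - e * c) + c * (b * e - d * c)) * (p * s - q * r) ^ 2 := by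
          rw [hV, hb', hc', he', hf']; ring
        rw [this, hdet, hps]; norm_num
      obtain ⟨u, v, w, huvw⟩ := ih V b' c' a e' f' hVpos (by push_cast at hN ⊢; omega) hm2 hdet2
        (s * y - q * z) (x - x0 * (s * y - q * z)) (p * z - r * y)
      refine ⟨u, v, w, ?_⟩
      rw [← huvw, hV, hb', hc', he', hf']
      have hy : y = p * (s * y - q * z) + q * (p * z - r * y) := by linear_combination (-y) * hps
      have hz : z = r * (s * y - q * z) + s * (p * z - r * y) := by linear_combination (-z) * hps
      have hx : x = x0 * (s * y - q * z) + (x - x0 * (s * y - q * z)) := by ring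
      generalize hX : s * y - q * z = X at *
      generalize hZ : p * z - r * y = Z at *
      generalize hY : x - x0 * X = Y at *
      rw [hy, hz, hx]; ring

end Pool.Agent.Lib.MP_be2ccc_co
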