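import Mathlib
import Pool.Agent.Lib.MP_be2ccc_co.ThreeA

/-!
# Sums of three squares (the classes `1, 2, 3, 5, 6` modulo `8`)
-/

set_option autoImplicit false

namespace Pool.Agent.Lib.MP_be2ccc_co

open NumberTheorySymbols

lemma three_of_square (n d m a x : ℤ) (hd : 0 < d) (hm : m = d * n - 1)
    (hm0 : 0 < m) (hx : x ^ 2 + d = m * a) : ∃ u v w : ℤ, n = u ^ 2 + v ^ 2 + w ^ 2 := by
  have ha : 0 < a := by
    by_contra hcon
    push Not at hcon
    nlinarith [sq_nonneg x]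
  obtain ⟨u, v, w, h⟩ := ternary_one a.toNat a x 1 m 0 n ha (Int.self_le_toNat _)
    (by nlinarith) (by rw [hm] at *; linear_combination (-n) * hx + hm * 0) 0 0 1
  refine ⟨u, v, w, ?_⟩
  rw [← h]; ring

/-- square mod `p` from the Jacobi symbol -/
lemma sq_of_jacobi (p : ℕ) (hp : p.Prime) (d : ℤ) (h : J(-d | p) = 1) :
    ∃ x a : ℤ, x ^ 2 + d = p * a := by
  have : Fact p.Prime := ⟨hp⟩
  obtain ⟨y, hy⟩ := ZMod.isSquare_of_jacobiSym_eq_one h
  obtain ⟨x, rfl⟩ : ∃ x : ℤ, (x : ZMod p) = y := ZMod.intCast_surjective y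
  have : ((x ^ 2 + d : ℤ) : ZMod p) = 0 := by
    push_cast
    push_cast at hy
    rw [sq, ← hy]; ring
  rw [ZMod.intCast_zmod_eq_zero_iff_dvd] at this
  obtain ⟨a, ha⟩ := this
  exact ⟨x, a, ha⟩

lemma sq_of_jacobi_two (p : ℕ) (hp : p.Prime) (hp2 : Odd p) (d : ℤ) (hd : Odd d)
    (h : J(-d | p) = 1) : ∃ x a : ℤ, x ^ 2 + d = (2 * p) * a := by
  obtain ⟨x, a, hxa⟩ := sq_of_jacobi p hp d h
  -- make x odd
  have key : ∀ y b : ℤ, Odd y → y ^ 2 + d = p * b → ∃ x a : ℤ, x ^ 2 + d = (2 * p) * a := by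
    intro y b hy hyb
    have h1 : Even ((p : ℤ) * b) := by
      rw [← hyb]; exact (hy.pow).add_odd hd
    have h2 : Even b := by
      rcases Int.even_mul.mp h1 with h | h
      · exfalso
        have : Odd (p : ℤ) := by exact_mod_cast hp2
        exact (Int.not_even_iff_odd.mpr this) h
      · exact h
    obtain ⟨c, hc⟩ := h2
    exact ⟨y, c, by rw [hyb, hc]; ring⟩
  rcases Int.even_or_odd x with he | ho
  · refine key (x + p) (a + 2 * x + p) ?_ ?_
    · have : Odd (p : ℤ) := by exact_mod_cast hp2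
      exact he.add_odd this
    · linear_combination hxa
  · exact key x a ho hxa

/-- case `n ≡ 2 mod 4` -/
lemma three_two (n : ℕ) (hn : n % 4 = 2) : ∃ u v w : ℤ, (n : ℤ) = u ^ 2 + v ^ 2 + w ^ 2 := by
  have hcop : (n - 1).Coprime (4 * n) := by
    have h1 : (n - 1).Coprime n := by
      have : n = (n - 1) + 1 := by omega
      conv_rhs => rw [this]
      simp
    have h2 : (n - 1).Coprime 4 := by
      have : Odd (n - 1) := by rw [Nat.odd_iff]; omega
      exact (this.coprime_two_right).pow_right 2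
    exact h2.mul_right h1
  obtain ⟨p, hpn, hp, hmod⟩ := Nat.forall_exists_prime_gt_and_modEq (4 * n) (q := 4 * n) (a := n - 1)
    (by omega) hcop
  -- p = 4 n v + n - 1
  obtain ⟨v, hv⟩ : ∃ v, p = 4 * n * v + (n - 1) := by
    refine ⟨p / (4 * n), ?_⟩
    have h1 : p % (4 * n) = (n - 1) % (4 * n) := hmod
    rw [Nat.mod_eq_of_lt (by omega : n - 1 < 4 * n)] at h1
    have := Nat.div_add_mod p (4 * n)
    rw [h1] at this; exact this.symm
  set d := 4 * v + 1 with hd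
  have hp4 : p % 4 = 1 := by
    rw [hv]
    have : (4 * n * v + (n - 1)) % 4 = (n - 1) % 4 := by
      rw [mul_assoc, Nat.mul_add_mod]
    rw [this]; omega
  have hpodd : Odd p := by rw [Nat.odd_iff]; omega
  have hdodd : Odd d := ⟨2 * v, by rw [hd]; ring⟩
  have hpd : (p : ℤ) = d * n - 1 := by
    rw [hv, hd]; push_cast [Nat.cast_sub (by omega : 1 ≤ n)]; ring
  have hJ : J(-(d : ℤ) | p) = 1 := by
    rw [jacobiSym.neg _ hpodd, ZMod.χ₄_nat_one_mod_four hp4, one_mul,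
      jacobiSym.quadratic_reciprocity_one_mod_four' hdodd hp4]
    have h1 : J((p : ℤ) | d) = J(-1 | d) := by
      apply jacobiSym.mod_left'
      rw [hpd]
      have : ((d : ℤ) * n - 1) = -1 + d * n := by ring
      rw [this, Int.add_mul_emod_self_left]
    rw [h1, jacobiSym.at_neg_one hdodd, ZMod.χ₄_nat_one_mod_four (by omega)]
  obtain ⟨x, a, hxa⟩ := sq_of_jacobi p hp d hJ
  exact three_of_square n d p a x (by exact_mod_cast (by omega : 0 < d)) hpd
    (by exact_mod_cast hp.pos) hxa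

/-- odd cases: a prime `p` with `2 p = d n - 1`. -/
lemma three_of_prime (n d p : ℕ) (hp : p.Prime) (hpodd : Odd p) (hdodd : Odd d)
    (h : (2 * p : ℤ) = d * n - 1) (hJ : J(-(d : ℤ) | p) = 1) :
    ∃ u v w : ℤ, (n : ℤ) = u ^ 2 + v ^ 2 + w ^ 2 := by
  obtain ⟨x, a, hxa⟩ := sq_of_jacobi_two p hp hpodd d (by exact_mod_cast hdodd) hJ
  refine three_of_square n d (2 * p) a x ?_ h ?_ hxa
  · have := hdodd.pos; exact_mod_cast this
  · have := hp.pos; positivity

lemma jac_aux (n d p : ℕ) (h : (2 * p : ℤ) = d * n - 1) :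
    J(2 | d) * J((p : ℤ) | d) = J(-1 | d) := by
  rw [← jacobiSym.mul_left]
  apply jacobiSym.mod_left'
  rw [h]
  have : ((d : ℤ) * n - 1) = -1 + d * n := by ring
  rw [this, Int.add_mul_emod_self_left]

/-- case `n` odd, `n ≢ 7 mod 8` -/
lemma three_odd (n : ℕ) (hn : n % 8 = 1 ∨ n % 8 = 3 ∨ n % 8 = 5) (hn1 : 1 < n) :
    ∃ u v w : ℤ, (n : ℤ) = u ^ 2 + v ^ 2 + w ^ 2 := by
  -- c = 1 if n ≡ 3, else 3
  set c : ℕ := if n % 8 = 3 then 1 else 3 with hc
  have hc' : (n % 8 = 3 ∧ c = 1) ∨ (n % 8 ≠ 3 ∧ c = 3) := by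
    by_cases h : n % 8 = 3
    · left; exact ⟨h, by rw [hc, if_pos h]⟩
    · right; exact ⟨h, by rw [hc, if_neg h]⟩
  obtain ⟨e, he⟩ : ∃ e, c * n - 1 = 2 * e := by
    refine ⟨(c * n - 1) / 2, ?_⟩
    rcases hc' with ⟨h, hc⟩ | ⟨h, hc⟩ <;> rw [hc] <;> omega
  have hcn : c * n = 2 * e + 1 := by
    have : 0 < c * n := by rcases hc' with ⟨h, hc⟩ | ⟨h, hc⟩ <;> rw [hc] <;> omega
    omega
  have heodd : e % 2 = 1 := by
    rcases hc' with ⟨h, hc⟩ | ⟨h, hc⟩ <;> rw [hc] at hcn <;> omega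
  have hcop : e.Coprime (4 * n) := by
    have h1 : e.Coprime n := by
      have h2 : (2 * e).Coprime n := by
        rw [Nat.coprime_iff_gcd_eq_one]
        have h3 : (2 * e).gcd n ∣ 1 := by
          have ha : (2 * e).gcd n ∣ 2 * e + 1 := by
            rw [← hcn]; exact (Nat.gcd_dvd_right _ _).mul_left c
          exact (Nat.dvd_add_right (Nat.gcd_dvd_left _ _)).mp ha
        exact Nat.dvd_one.mp h3
      exact Nat.Coprime.coprime_mul_left h2
    have h2 : e.Coprime 4 := by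
      have : Odd e := by rw [Nat.odd_iff]; exact heodd
      exact (this.coprime_two_right).pow_right 2
    exact h2.mul_right h1
  obtain ⟨p, hpn, hp, hmod⟩ := Nat.forall_exists_prime_gt_and_modEq (4 * n) (q := 4 * n) (a := e)
    (by omega) hcop
  have helt : e < 4 * n := by
    rcases hc' with ⟨h, hc⟩ | ⟨h, hc⟩ <;> rw [hc] at hcn <;> omega
  obtain ⟨v, hv⟩ : ∃ v, p = 4 * n * v + e := by
    refine ⟨p / (4 * n), ?_⟩
    have h1 : p % (4 * n) = e % (4 * n) := hmod
    rw [Nat.mod_eq_of_lt helt] at h1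
    have := Nat.div_add_mod p (4 * n)
    rw [h1] at this; exact this.symm
  set d := 8 * v + c with hd
  have hpe : p % 4 = e % 4 := by
    rw [hv, mul_assoc, Nat.mul_add_mod]
  have hpodd : Odd p := by rw [Nat.odd_iff]; omega
  have hdodd : Odd d := by
    rw [Nat.odd_iff]
    rcases hc' with ⟨h, hc⟩ | ⟨h, hc⟩ <;> rw [hd, hc] <;> omega
  have hpd : (2 * p : ℤ) = d * n - 1 := by
    have h1 : 2 * p + 1 = d * n := by
      rw [hv, hd]
      calc 2 * (4 * n * v + e) + 1 = 8 * v * n + (2 * e + 1) := by ring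
        _ = (8 * v + c) * n := by rw [← hcn]; ring
    have h2 : (2 * (p : ℤ) + 1) = d * n := by exact_mod_cast h1
    linarith
  have hjac := jac_aux n d p hpd
  refine three_of_prime n d p hp hpodd hdodd hpd ?_
  rcases hc' with ⟨h, hc⟩ | ⟨h, hc⟩
  · -- n ≡ 3 mod 8: d ≡ 1 mod 8, p ≡ 1 mod 4
    have hd8 : d % 8 = 1 := by omega
    have hp4 : p % 4 = 1 := by rw [hc] at hcn; omega
    rw [jacobiSym.at_two hdodd, jacobiSym.at_neg_one hdodd, ZMod.χ₄_nat_one_mod_four (by omega),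
      ZMod.χ₈_nat_eq_if_mod_eight] at hjac
    rw [jacobiSym.neg _ hpodd, ZMod.χ₄_nat_one_mod_four hp4, one_mul,
      jacobiSym.quadratic_reciprocity_one_mod_four' hdodd hp4]
    simpa [hd8, Nat.odd_iff.mp hdodd] using hjac
  · have hd8 : d % 8 = 3 := by omega
    rw [jacobiSym.at_two hdodd, jacobiSym.at_neg_one hdodd, ZMod.χ₄_nat_three_mod_four (by omega),
      ZMod.χ₈_nat_eq_if_mod_eight] at hjac
    have hJ : J((p : ℤ) | d) = 1 := by
      have h2 : d % 2 ≠ 0 := by omega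
      simp [hd8, h2] at hjac
      exact hjac
    rw [jacobiSym.neg _ hpodd]
    rcases (by omega : p % 4 = 1 ∨ p % 4 = 3) with hp4 | hp4
    · rw [ZMod.χ₄_nat_one_mod_four hp4, one_mul,
        jacobiSym.quadratic_reciprocity_one_mod_four' hdodd hp4]
      exact hJ
    · rw [ZMod.χ₄_nat_three_mod_four hp4,
        jacobiSym.quadratic_reciprocity_three_mod_four (by omega) hp4, hJ]
      norm_num

/-- Legendre: `n ≡ 1, 2, 3, 5, 6 mod 8` is a sum of three squares. -/
theorem three_squares (n : ℕ) (hn : n % 4 = 2 ∨ n % 8 = 1 ∨ n % 8 = 3 ∨ n % 8 = 5) :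
    ∃ u v w : ℤ, (n : ℤ) = u ^ 2 + v ^ 2 + w ^ 2 := by
  rcases hn with h | h
  · exact three_two n h
  · by_cases h1 : 1 < n
    · exact three_odd n h h1
    · have : n = 1 := by omega
      exact ⟨1, 0, 0, by rw [this]; norm_num⟩

end Pool.Agent.Lib.MP_be2ccc_co
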