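import Mathlib

/-!
# Ternary sequences over finite abelian groups, their correlations, pairs and quads
-/

set_option autoImplicit false

namespace Pool.Agent.Lib.MP_be2ccc_co

/-- entries allowed in a weighing matrix -/
def Tern (x : ℤ) : Prop := x = 0 ∨ x = 1 ∨ x = -1

lemma Tern.zero : Tern 0 := Or.inl rfl
lemma Tern.one : Tern 1 := Or.inr (Or.inl rfl)

lemma Tern.neg {x : ℤ} (h : Tern x) : Tern (-x) := by
  rcases h with h | h | h <;> subst h <;> simp [Tern]

lemma Tern.mul {x y : ℤ} (hx : Tern x) (hy : Tern y) : Tern (x * y) := by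
  rcases hx with h | h | h <;> rcases hy with h' | h' | h' <;> subst h <;> subst h' <;> simp [Tern]

lemma Tern.ite {p : Prop} [Decidable p] {x y : ℤ} (hx : Tern x) (hy : Tern y) :
    Tern (if p then x else y) := by
  split_ifs <;> assumption

section
variable {G : Type} [AddCommGroup G] [Fintype G]

/-- correlation -/
def cor (f g : G → ℤ) (t : G) : ℤ := ∑ x, f x * g (x + t)

/-- reversal -/
def rev (f : G → ℤ) (x : G) : ℤ := f (-x)

lemma cor_rev_right (c d : G → ℤ) (u : G) : cor c (rev d) u = cor d (rev c) u := by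
  unfold cor rev
  refine Fintype.sum_equiv ((Equiv.neg G).trans (Equiv.subRight u)) _ _ ?_
  intro x
  simp only [Equiv.trans_apply, Equiv.neg_apply, Equiv.subRight_apply]
  have h1 : -(x + u) = -x - u := by abel
  have h2 : -(-x - u + u) = x := by abel
  rw [h1, h2]; ring

lemma cor_rev_left (c d : G → ℤ) (u : G) : cor (rev d) c u = cor (rev c) d u := by
  unfold cor rev
  refine Fintype.sum_equiv ((Equiv.neg G).trans (Equiv.subRight u)) _ _ ?_
  intro x
  simp only [Equiv.trans_apply, Equiv.neg_apply, Equiv.subRight_apply]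
  have h1 : -(-x - u) = x + u := by abel
  have h2 : (-x - u + u) = -x := by abel
  rw [h1, h2]; ring

lemma cor_rev_rev (c : G → ℤ) (u : G) : cor (rev c) (rev c) u = cor c c u := by
  unfold cor rev
  refine Fintype.sum_equiv ((Equiv.neg G).trans (Equiv.subRight u)) _ _ ?_
  intro x
  simp only [Equiv.trans_apply, Equiv.neg_apply, Equiv.subRight_apply]
  have h1 : -(x + u) = -x - u := by abel
  have h2 : (-x - u + u) = -x := by abel
  rw [h1, h2]; ring

end

/-- there is a pair of ternary functions of total weight `s` over `G` -/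
def Pair (G : Type) [AddCommGroup G] [Fintype G] [DecidableEq G] (s : ℕ) : Prop :=
  ∃ a b : G → ℤ, (∀ x, Tern (a x)) ∧ (∀ x, Tern (b x)) ∧
    ∀ t, cor a a t + cor b b t = if t = 0 then (s : ℤ) else 0

/-- four ternary functions of total weight `k` over `G` -/
def Quad (G : Type) [AddCommGroup G] [Fintype G] [DecidableEq G] (k : ℕ) : Prop :=
  ∃ a b c d : G → ℤ, (∀ x, Tern (a x)) ∧ (∀ x, Tern (b x)) ∧ (∀ x, Tern (c x)) ∧ (∀ x, Tern (d x)) ∧
    ∀ t, cor a a t + cor b b t + cor c c t + cor d d t = if t = 0 then (k : ℤ) else 0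

/-- a pair of weight `s` over some abelian group of order `m` -/
def PairOrd (s m : ℕ) : Prop :=
  ∃ (G : Type) (_ : AddCommGroup G) (_ : Fintype G) (_ : DecidableEq G), Fintype.card G = m ∧ Pair G s

/-- a quad of weight `k` over some abelian group of order `m` -/
def QuadOrd (k m : ℕ) : Prop :=
  ∃ (G : Type) (_ : AddCommGroup G) (_ : Fintype G) (_ : DecidableEq G), Fintype.card G = m ∧ Quad G k

lemma pairOrd_zero : PairOrd 0 1 := by
  refine ⟨Unit, inferInstance, inferInstance, inferInstance, rfl, fun _ => 0, fun _ => 0,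
    fun _ => Tern.zero, fun _ => Tern.zero, ?_⟩
  intro t; simp [cor]

lemma pairOrd_one : PairOrd 1 1 := by
  refine ⟨Unit, inferInstance, inferInstance, inferInstance, rfl, fun _ => 1, fun _ => 0,
    fun _ => Tern.one, fun _ => Tern.zero, ?_⟩
  intro t; simp [cor]

section product
variable {G H : Type} [AddCommGroup G] [Fintype G] [AddCommGroup H] [Fintype H]

/-- the twisted product: `e` placed in the coset `0`, `f` in the coset `1` of `ZMod 3`. -/
def tw (e f : G × H → ℤ) : (G × H) × ZMod 3 → ℤ := fun z =>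
  if z.2 = 0 then e z.1 else if z.2 = 1 then f z.1 else 0

/-- tensor product of functions -/
def ten (a : G → ℤ) (c : H → ℤ) : G × H → ℤ := fun z => a z.1 * c z.2

lemma cor_ten (a b : G → ℤ) (c d : H → ℤ) (t : G × H) :
    cor (ten a c) (ten b d) t = cor a b t.1 * cor c d t.2 := by
  unfold cor ten
  rw [Finset.sum_mul_sum, ← Finset.sum_product', Finset.univ_product_univ]
  refine Finset.sum_congr rfl fun x _ => ?_
  simp only [Prod.fst_add, Prod.snd_add]; ring

lemma cor_tw (e f : G × H → ℤ) (t : (G × H) × ZMod 3) :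
    cor (tw e f) (tw e f) t =
      if t.2 = 0 then cor e e t.1 + cor f f t.1 else if t.2 = 1 then cor e f t.1 else cor f e t.1 := by
  obtain ⟨t, j⟩ := t
  have hsum : cor (tw e f) (tw e f) (t, j) = ∑ i : ZMod 3, ∑ x : G × H,
      tw e f (x, i) * tw e f (x + t, i + j) := by
    unfold cor
    rw [Fintype.sum_prod_type_right]
    rfl
  rw [hsum]
  have h3 : ∀ F : ZMod 3 → ℤ, ∑ i, F i = F 0 + F 1 + F 2 := by
    intro F; exact Fin.sum_univ_three F
  rw [h3]
  have e1 : (1 : ZMod 3) ≠ 0 := by decide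
  have e2 : (2 : ZMod 3) ≠ 0 := by decide
  have e3 : (2 : ZMod 3) ≠ 1 := by decide
  have e4 : (1 : ZMod 3) + 1 = 2 := by decide
  have e5 : (1 : ZMod 3) + 2 = 0 := by decide
  have e6 : (0 : ZMod 3) ≠ 1 := by decide
  have hj : j = 0 ∨ j = 1 ∨ j = 2 :=
    (by decide : ∀ j : ZMod 3, j = 0 ∨ j = 1 ∨ j = 2) j
  rcases hj with rfl | rfl | rfl
  · simp [tw, cor, e1, e2, e3]
  · simp [tw, cor, e1, e2, e3, e4]
  · simp [tw, cor, e1, e2, e3, e5]

/-- **Multiplicativity of norms.** -/
lemma alamouti (a b : G → ℤ) (c d : H → ℤ) (t : (G × H) × ZMod 3) :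
    cor (tw (ten a c) (ten b (rev d))) (tw (ten a c) (ten b (rev d))) t +
    cor (tw (ten a d) (-ten b (rev c))) (tw (ten a d) (-ten b (rev c))) t =
      if t.2 = 0 then (cor a a t.1.1 + cor b b t.1.1) * (cor c c t.1.2 + cor d d t.1.2) else 0 := by
  rw [cor_tw, cor_tw]
  have hneg : ∀ (p q : G × H → ℤ) (t : G × H), cor p (-q) t = - cor p q t := by
    intro p q t; simp [cor]
  have hneg' : ∀ (p q : G × H → ℤ) (t : G × H), cor (-p) q t = - cor p q t := by
    intro p q t; simp [cor]
  simp only [hneg, hneg', cor_ten, cor_rev_rev]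
  rw [cor_rev_right c d, cor_rev_left c d]
  split_ifs <;> ring

lemma tern_tw {e f : G × H → ℤ} (he : ∀ x, Tern (e x)) (hf : ∀ x, Tern (f x)) (z) :
    Tern (tw e f z) := by
  unfold tw
  exact Tern.ite (he _) (Tern.ite (hf _) Tern.zero)

end product

lemma delta_mul {G H : Type} [AddCommGroup G] [DecidableEq G] [AddCommGroup H] [DecidableEq H]
    (s s' : ℤ) (t : (G × H) × ZMod 3) :
    (if t.2 = 0 then (if t.1.1 = 0 then s else 0) * (if t.1.2 = 0 then s' else 0) else 0) =
      if t = 0 then s * s' else 0 := by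
  obtain ⟨⟨t1, t2⟩, j⟩ := t
  simp only [Prod.mk_eq_zero]
  by_cases h1 : t1 = 0 <;> by_cases h2 : t2 = 0 <;> by_cases h3 : j = 0 <;> simp [h1, h2, h3]

lemma pairOrd_mul {s m s' m' : ℕ} (h : PairOrd s m) (h' : PairOrd s' m') :
    PairOrd (s * s') (m * m' * 3) := by
  obtain ⟨G, _, _, _, hG, a, b, ha, hb, hab⟩ := h
  obtain ⟨H, _, _, _, hH, c, d, hc, hd, hcd⟩ := h'
  refine ⟨(G × H) × ZMod 3, inferInstance, inferInstance, inferInstance, ?_,
    tw (ten a c) (ten b (rev d)), tw (ten a d) (-ten b (rev c)), ?_, ?_, ?_⟩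
  · simp [Fintype.card_prod, hG, hH, ZMod.card]
  · exact tern_tw (fun x => (ha _).mul (hc _)) (fun x => (hb _).mul (hd _))
  · exact tern_tw (fun x => (ha _).mul (hd _)) (fun x => ((hb _).mul (hc _)).neg)
  · intro t
    rw [alamouti, hab, hcd, delta_mul]
    push_cast; rfl

lemma quadOrd_mul {s m s' m' : ℕ} (h : QuadOrd s m) (h' : PairOrd s' m') :
    QuadOrd (s * s') (m * m' * 3) := by
  obtain ⟨G, _, _, _, hG, a, b, a', b', ha, hb, ha', hb', hab⟩ := h
  obtain ⟨H, _, _, _, hH, c, d, hc, hd, hcd⟩ := h'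
  refine ⟨(G × H) × ZMod 3, inferInstance, inferInstance, inferInstance, ?_,
    tw (ten a c) (ten b (rev d)), tw (ten a d) (-ten b (rev c)),
    tw (ten a' c) (ten b' (rev d)), tw (ten a' d) (-ten b' (rev c)), ?_, ?_, ?_, ?_, ?_⟩
  · simp [Fintype.card_prod, hG, hH, ZMod.card]
  · exact tern_tw (fun x => (ha _).mul (hc _)) (fun x => (hb _).mul (hd _))
  · exact tern_tw (fun x => (ha _).mul (hd _)) (fun x => ((hb _).mul (hc _)).neg)
  · exact tern_tw (fun x => (ha' _).mul (hc _)) (fun x => (hb' _).mul (hd _))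
  · exact tern_tw (fun x => (ha' _).mul (hd _)) (fun x => ((hb' _).mul (hc _)).neg)
  · intro t
    have h1 := alamouti a b c d t
    have h2 := alamouti a' b' c d t
    have h3 := hab t.1.1
    have h4 := hcd t.1.2
    rw [add_assoc (cor _ _ t + cor _ _ t), h1, h2, ← ite_add_zero, ← add_mul, ← add_assoc, h3, h4, delta_mul]
    push_cast; rfl

/-- two pairs over two groups make a quad over the product group -/
lemma quadOrd_of_pairs {s m s' m' : ℕ} (h : PairOrd s m) (h' : PairOrd s' m') :
    QuadOrd (s + s') (m * m') := by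
  obtain ⟨G, _, _, _, hG, a, b, ha, hb, hab⟩ := h
  obtain ⟨H, _, _, _, hH, c, d, hc, hd, hcd⟩ := h'
  have hl : ∀ (f : G → ℤ) (t : G × H),
      cor (fun z : G × H => if z.2 = 0 then f z.1 else 0) (fun z : G × H => if z.2 = 0 then f z.1 else 0) t =
        if t.2 = 0 then cor f f t.1 else 0 := by
    intro f t
    obtain ⟨t, u⟩ := t
    unfold cor
    rw [Fintype.sum_prod_type_right]
    rw [Finset.sum_eq_single (0 : H)]
    · by_cases hu : u = 0 <;> simp [hu]
    · intro y _ hy; simp [hy]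
    · simp
  have hr : ∀ (f : H → ℤ) (t : G × H),
      cor (fun z : G × H => if z.1 = 0 then f z.2 else 0) (fun z : G × H => if z.1 = 0 then f z.2 else 0) t =
        if t.1 = 0 then cor f f t.2 else 0 := by
    intro f t
    obtain ⟨t, u⟩ := t
    unfold cor
    rw [Fintype.sum_prod_type]
    rw [Finset.sum_eq_single (0 : G)]
    · by_cases hu : t = 0 <;> simp [hu]
    · intro y _ hy; simp [hy]
    · simp
  refine ⟨G × H, inferInstance, inferInstance, inferInstance, by simp [hG, hH],
    fun z => if z.2 = 0 then a z.1 else 0, fun z => if z.2 = 0 then b z.1 else 0,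
    fun z => if z.1 = 0 then c z.2 else 0, fun z => if z.1 = 0 then d z.2 else 0, ?_, ?_, ?_, ?_, ?_⟩
  · exact fun z => Tern.ite (ha _) Tern.zero
  · exact fun z => Tern.ite (hb _) Tern.zero
  · exact fun z => Tern.ite (hc _) Tern.zero
  · exact fun z => Tern.ite (hd _) Tern.zero
  · intro t
    rw [hl, hl, hr, hr]
    have h3 := hab t.1
    have h4 := hcd t.2
    obtain ⟨t, u⟩ := t
    simp only [Prod.mk_eq_zero] at *
    by_cases h1 : t = 0 <;> by_cases h2 : u = 0 <;> simp [h1, h2] at h3 h4 ⊢ <;> linarith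

end Pool.Agent.Lib.MP_be2ccc_co
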