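import Mathlib
import Pool.Agent.Lib.MP_be2ccc_co.Seq

/-!
# Weighing matrices: direct sums, symmetrisation, the Sylvester step
-/

set_option autoImplicit false

namespace Pool.Agent.Lib.MP_be2ccc_co

open Matrix Kronecker

/-- weighing matrix with arbitrary index type -/
def HasWI (ι : Type) [Fintype ι] [DecidableEq ι] (k : ℕ) : Prop :=
  ∃ A : Matrix ι ι ℤ, (∀ i j, Tern (A i j)) ∧ A * Aᵀ = (k : ℤ) • (1 : Matrix ι ι ℤ)

/-- weighing matrix of order `n` -/
def HasW (n k : ℕ) : Prop := HasWI (Fin n) k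

lemma HasWI.congr {ι κ : Type} [Fintype ι] [DecidableEq ι] [Fintype κ] [DecidableEq κ] {k : ℕ}
    (e : ι ≃ κ) (h : HasWI ι k) : HasWI κ k := by
  obtain ⟨A, hA, hAA⟩ := h
  refine ⟨A.submatrix e.symm e.symm, fun i j => hA _ _, ?_⟩
  rw [transpose_submatrix, submatrix_mul_equiv, hAA, submatrix_smul]
  simp only [Pi.smul_apply, submatrix_one_equiv]

lemma smul_one_blocks (ι κ : Type) [DecidableEq ι] [DecidableEq κ] (c : ℤ) :
    c • (1 : Matrix (ι ⊕ κ) (ι ⊕ κ) ℤ) =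
      fromBlocks (c • (1 : Matrix ι ι ℤ)) 0 0 (c • (1 : Matrix κ κ ℤ)) := by
  rw [← fromBlocks_one, fromBlocks_smul]; simp

lemma HasWI.hasW {ι : Type} [Fintype ι] [DecidableEq ι] {n k : ℕ} (hn : Fintype.card ι = n)
    (h : HasWI ι k) : HasW n k := h.congr (Fintype.equivFinOfCardEq hn)

lemma HasW.add {n n' k : ℕ} (h : HasW n k) (h' : HasW n' k) : HasW (n + n') k := by
  obtain ⟨A, hA, hAA⟩ := h
  obtain ⟨B, hB, hBB⟩ := h'
  refine HasWI.hasW (ι := Fin n ⊕ Fin n') (by simp) ⟨fromBlocks A 0 0 B, ?_, ?_⟩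
  · rintro (i | i) (j | j) <;> simp [hA, hB, Tern.zero]
  · rw [fromBlocks_transpose, fromBlocks_multiply, hAA, hBB, smul_one_blocks]
    simp

lemma hasW_zero_order (k : ℕ) : HasW 0 k := ⟨0, fun i => i.elim0, by ext i; exact i.elim0⟩

lemma HasW.mul {n k : ℕ} (h : HasW n k) (c : ℕ) : HasW (c * n) k := by
  induction c with
  | zero => simpa using hasW_zero_order k
  | succ c ih => rw [Nat.succ_mul]; exact ih.add h

/-- two-sided -/
lemma both_sides {ι : Type} [Fintype ι] [DecidableEq ι] {k : ℕ} (A : Matrix ι ι ℤ)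
    (h : A * Aᵀ = (k : ℤ) • (1 : Matrix ι ι ℤ)) : Aᵀ * A = (k : ℤ) • (1 : Matrix ι ι ℤ) := by
  rcases Nat.eq_zero_or_pos k with hk | hk
  · subst hk
    have hA : A = 0 := by
      ext i j
      have h1 : (A * Aᵀ) i i = 0 := by rw [h]; simp
      rw [Matrix.mul_apply] at h1
      have h2 := (Finset.sum_eq_zero_iff_of_nonneg (fun x _ => by
        rw [transpose_apply]; exact mul_self_nonneg _)).mp h1 j (Finset.mem_univ _)
      rw [transpose_apply] at h2
      simpa using h2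
    rw [hA]; simp
  · -- over ℚ
    have hk' : (k : ℚ) ≠ 0 := by positivity
    let B : Matrix ι ι ℚ := A.map (Int.castRingHom ℚ)
    have hB : B * Bᵀ = (k : ℚ) • (1 : Matrix ι ι ℚ) := by
      have := congrArg (fun M => M.map (Int.castRingHom ℚ)) h
      simp only [Matrix.map_mul] at this
      rw [transpose_map] at this
      rw [this]
      ext i j
      rw [Matrix.map_apply, Matrix.smul_apply, Matrix.smul_apply, Matrix.one_apply, Matrix.one_apply]
      split_ifs <;> simp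
    have h1 : B * ((k : ℚ)⁻¹ • Bᵀ) = 1 := by
      rw [Matrix.mul_smul, hB, smul_smul, inv_mul_cancel₀ hk', one_smul]
    have h2 := mul_eq_one_comm.mp h1
    have h3 : Bᵀ * B = (k : ℚ) • (1 : Matrix ι ι ℚ) := by
      rw [← h2, Matrix.smul_mul, smul_smul, mul_inv_cancel₀ hk', one_smul]
    ext i j
    have h4 := congrFun (congrFun h3 i) j
    have h5 : (((Aᵀ * A) i j : ℤ) : ℚ) = (Bᵀ * B) i j := by
      simp [B, Matrix.mul_apply]
    have h6 : ((((k : ℤ) • (1 : Matrix ι ι ℤ)) i j : ℤ) : ℚ) = ((k : ℚ) • (1 : Matrix ι ι ℚ)) i j := by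
      rw [Matrix.smul_apply, Matrix.smul_apply, Matrix.one_apply, Matrix.one_apply]
      split_ifs <;> simp
    exact_mod_cast h5.trans (h4.trans h6.symm)

/-- the Sylvester family: for every `t` there is an index type of cardinality `2^t`, a symmetric
Hadamard matrix `H`, and for every `r ≤ 2^t` a matrix of weight `r` amicable with `H`. -/
lemma sylvester (t : ℕ) : ∃ (ι : Type) (_ : Fintype ι) (_ : DecidableEq ι) (H : Matrix ι ι ℤ),
    Fintype.card ι = 2 ^ t ∧ (∀ i j, Tern (H i j)) ∧ Hᵀ = H ∧ H * H = ((2 ^ t : ℕ) : ℤ) • (1 : Matrix ι ι ℤ) ∧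
    ∀ r : ℕ, r ≤ 2 ^ t → ∃ Z : Matrix ι ι ℤ, (∀ i j, Tern (Z i j)) ∧ Z * Zᵀ = (r : ℤ) • (1 : Matrix ι ι ℤ) ∧
      Z * H = H * Zᵀ := by
  induction t with
  | zero =>
    refine ⟨Unit, inferInstance, inferInstance, 1, by simp, ?_, by simp, by simp, ?_⟩
    · intro i j; simp [Tern]
    · intro r hr
      rcases (by simp at hr; omega : r = 0 ∨ r = 1) with h | h
      · refine ⟨0, fun i j => Tern.zero, by simp [h], by simp⟩
      · refine ⟨1, fun i j => by simp [Tern], by simp [h], by simp⟩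
  | succ t ih =>
    obtain ⟨ι, _, _, H, hc, hH, hs, hHH, hZ⟩ := ih
    refine ⟨ι ⊕ ι, inferInstance, inferInstance, fromBlocks H H H (-H), ?_, ?_, ?_, ?_, ?_⟩
    · rw [Fintype.card_sum, hc]; ring
    · rintro (i | i) (j | j) <;> simp [hH, Tern.neg]
    · rw [fromBlocks_transpose]; simp [hs]
    · rw [fromBlocks_multiply, smul_one_blocks]
      have h2 : ((2 ^ t : ℕ) : ℤ) • (1 : Matrix ι ι ℤ) + ((2 ^ t : ℕ) : ℤ) • (1 : Matrix ι ι ℤ) =
          ((2 ^ (t + 1) : ℕ) : ℤ) • (1 : Matrix ι ι ℤ) := by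
        rw [← add_smul, pow_succ]; congr 1; push_cast; ring
      simp only [Matrix.mul_neg, Matrix.neg_mul, neg_neg, hHH, add_neg_cancel, h2]
    · intro r hr
      by_cases h : r ≤ 2 ^ t
      · obtain ⟨Z, hZt, hZZ, hZH⟩ := hZ r h
        refine ⟨fromBlocks Z 0 0 Z, ?_, ?_, ?_⟩
        · rintro (i | i) (j | j) <;> simp [hZt, Tern.zero]
        · rw [fromBlocks_transpose, fromBlocks_multiply, hZZ, smul_one_blocks]
          simp
        · rw [fromBlocks_transpose, fromBlocks_multiply, fromBlocks_multiply]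
          simp [hZH]
      · obtain ⟨Z, hZt, hZZ, hZH⟩ := hZ (r - 2 ^ t) (by rw [pow_succ] at hr; omega)
        refine ⟨fromBlocks Z H (-H) Z, ?_, ?_, ?_⟩
        · rintro (i | i) (j | j) <;> simp [hZt, hH, Tern.neg]
        · rw [fromBlocks_transpose, fromBlocks_multiply]
          simp only [transpose_neg, hs, Matrix.mul_neg, Matrix.neg_mul, neg_neg, hHH, hZZ, hZH]
          rw [smul_one_blocks]
          have hr' : ((r - 2 ^ t : ℕ) : ℤ) + ((2 ^ t : ℕ) : ℤ) = r := by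
            rw [Nat.cast_sub (by omega)]; ring
          congr 1
          · rw [← add_smul, hr']
          · simp
          · simp
          · rw [add_comm, ← add_smul, hr']
        · rw [fromBlocks_transpose, fromBlocks_multiply, fromBlocks_multiply]
          simp only [transpose_neg, hs, Matrix.mul_neg, Matrix.neg_mul, hHH, hZH]
          congr 1
          · abel
          · abel

/-- all weights in orders that are powers of two -/
lemma hasW_two_pow (t k : ℕ) (hk : k ≤ 2 ^ t) : HasW (2 ^ t) k := by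
  obtain ⟨ι, _, _, H, hc, hH, hs, hHH, hZ⟩ := sylvester t
  obtain ⟨Z, hZt, hZZ, -⟩ := hZ k hk
  exact HasWI.hasW hc ⟨Z, hZt, hZZ⟩

lemma step_aux (t r k' : ℕ) (hr : r ≤ 2 ^ t) (κ : Type) [Fintype κ] [DecidableEq κ]
    (S : Matrix κ κ ℤ) (hSt : Sᵀ = S) (hS : ∀ i j, Tern (S i j))
    (hSS : S * S = (k' : ℤ) • (1 : Matrix κ κ ℤ)) :
    HasW (2 ^ (t + 1) * Fintype.card κ) (r + 2 ^ t * k') := by
  obtain ⟨ι, _, _, H, hc, hH, hs, hHH, hZ⟩ := sylvester t
  obtain ⟨Z, hZt, hZZ, hZH⟩ := hZ r hr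
  refine HasWI.hasW (ι := (ι × κ) ⊕ (ι × κ)) ?_
    ⟨fromBlocks (Z ⊗ₖ (1 : Matrix κ κ ℤ)) (H ⊗ₖ S) (-(H ⊗ₖ S)) (Z ⊗ₖ (1 : Matrix κ κ ℤ)), ?_, ?_⟩
  · simp [Fintype.card_sum, Fintype.card_prod, hc]; ring
  · have h1 : ∀ i j : κ, Tern ((1 : Matrix κ κ ℤ) i j) := by
      intro i j; rw [Matrix.one_apply]; exact Tern.ite Tern.one Tern.zero
    rintro (i | i) (j | j)
    · exact (hZt _ _).mul (h1 _ _)
    · exact (hH _ _).mul (hS _ _)
    · exact ((hH _ _).mul (hS _ _)).neg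
    · exact (hZt _ _).mul (h1 _ _)
  · rw [fromBlocks_transpose, fromBlocks_multiply]
    have t1 : (Z ⊗ₖ (1 : Matrix κ κ ℤ))ᵀ = Zᵀ ⊗ₖ (1 : Matrix κ κ ℤ) := by
      rw [← kroneckerMap_transpose]; simp
    have t2 : (H ⊗ₖ S)ᵀ = H ⊗ₖ S := by
      rw [← kroneckerMap_transpose]; simp [hs, hSt]
    simp only [transpose_neg, t1, t2, Matrix.mul_neg, Matrix.neg_mul, neg_neg,
      ← Matrix.mul_kronecker_mul, Matrix.mul_one, Matrix.one_mul, hZZ, hHH, hSS, hZH]
    rw [smul_one_blocks]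
    have h2 : ((r : ℤ) • (1 : Matrix ι ι ℤ)) ⊗ₖ (1 : Matrix κ κ ℤ) =
        (r : ℤ) • (1 : Matrix (ι × κ) (ι × κ) ℤ) := by
      rw [Matrix.smul_kronecker, Matrix.one_kronecker_one]
    have h3 : (((2 ^ t : ℕ) : ℤ) • (1 : Matrix ι ι ℤ)) ⊗ₖ ((k' : ℤ) • (1 : Matrix κ κ ℤ)) =
        (((2 ^ t : ℕ) : ℤ) * k') • (1 : Matrix (ι × κ) (ι × κ) ℤ) := by
      rw [Matrix.smul_kronecker, Matrix.kronecker_smul, Matrix.one_kronecker_one, smul_smul]
    rw [h2, h3]
    congr 1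
    · rw [← add_smul]; push_cast; rfl
    · simp
    · simp
    · rw [add_comm, ← add_smul]; push_cast; rfl

/-- the step `k = r + 2^t k'` -/
lemma hasW_step (t r k' m : ℕ) (hr : r ≤ 2 ^ t) (h : HasW m k') :
    HasW (2 ^ (t + 1) * (2 * m)) (r + 2 ^ t * k') := by
  obtain ⟨A, hA, hAA⟩ := h
  have hAA' := both_sides A hAA
  have := step_aux t r k' hr (Fin m ⊕ Fin m) (fromBlocks 0 A Aᵀ 0)
    (by simp [fromBlocks_transpose])
    (by rintro (i | i) (j | j) <;> simp [hA, Tern.zero])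
    (by rw [fromBlocks_multiply, smul_one_blocks]; simp [hAA, hAA'])
  simpa [two_mul] using this

end Pool.Agent.Lib.MP_be2ccc_co
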