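import Mathlib
import Pool.Agent.Lib.MP_be2ccc_co.ThreeB

/-!
# `k = s₁ + s₂`, both sums of two squares, with `s₂ ≤ 4 √k`
-/

set_option autoImplicit false

namespace Pool.Agent.Lib.MP_be2ccc_co

/-- sum of two squares of naturals -/
def S2 (s : ℕ) : Prop := ∃ x y : ℕ, s = x ^ 2 + y ^ 2

lemma S2_of_int (s : ℕ) (x y : ℤ) (h : (s : ℤ) = x ^ 2 + y ^ 2) : S2 s := by
  refine ⟨x.natAbs, y.natAbs, ?_⟩
  have : (s : ℤ) = (x.natAbs : ℤ) ^ 2 + (y.natAbs : ℤ) ^ 2 := by rw [h]; simp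
  exact_mod_cast this

/-- **Decomposition.** -/
theorem decomp (k : ℕ) (hk : ¬ 4 ∣ k) :
    ∃ s₁ s₂ : ℕ, k = s₁ + s₂ ∧ S2 s₁ ∧ S2 s₂ ∧ s₂ ^ 2 ≤ 16 * k := by
  set N := Nat.sqrt k with hN
  have hk0 : 0 < k := by
    rcases Nat.eq_zero_or_pos k with h | h
    · exact absurd (h ▸ dvd_zero 4) hk
    · exact h
  have h1 : N * N ≤ k := Nat.sqrt_le k
  have h2 : k ≤ N * N + N + N := Nat.sqrt_le_add k
  have hN1 : 1 ≤ N := Nat.sqrt_pos.mpr hk0
  -- choose a in {N, N-1}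
  obtain ⟨a, haN, haN', hmod⟩ : ∃ a, a ≤ N ∧ N ≤ a + 1 ∧ ((k - a * a) % 4 = 2 ∨ (k - a * a) % 8 = 1 ∨
      (k - a * a) % 8 = 3 ∨ (k - a * a) % 8 = 5) := by
    have hsq : ∀ a : ℕ, (a % 2 = 0 → a * a % 8 = 0 ∨ a * a % 8 = 4) ∧ (a % 2 = 1 → a * a % 8 = 1) := by
      intro a
      have h8 : a % 8 < 8 := Nat.mod_lt _ (by norm_num)
      have hm : a * a % 8 = (a % 8) * (a % 8) % 8 := Nat.mul_mod _ _ _
      constructor
      · intro h
        rw [hm]
        have : a % 8 = 0 ∨ a % 8 = 2 ∨ a % 8 = 4 ∨ a % 8 = 6 := by omega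
        rcases this with h | h | h | h <;> rw [h] <;> simp
      · intro h
        rw [hm]
        have : a % 8 = 1 ∨ a % 8 = 3 ∨ a % 8 = 5 ∨ a % 8 = 7 := by omega
        rcases this with h | h | h | h <;> rw [h]
    have hle : ∀ a, a ≤ N → a * a ≤ k := fun a ha => (Nat.mul_le_mul ha ha).trans h1
    have hk4 : k % 4 ≠ 0 := fun h => hk (Nat.dvd_of_mod_eq_zero h)
    -- parity wanted
    have key : ∀ a, a ≤ N → (k % 4 = 1 → a % 2 = 0) → (k % 4 = 3 → a % 2 = 1) →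
        ((k - a * a) % 4 = 2 ∨ (k - a * a) % 8 = 1 ∨
      (k - a * a) % 8 = 3 ∨ (k - a * a) % 8 = 5) := by
      intro a ha h1' h3'
      have hA := hle a ha
      obtain ⟨h0, h1o⟩ := hsq a
      generalize a * a = A at *
      rcases (by omega : k % 4 = 1 ∨ k % 4 = 2 ∨ k % 4 = 3) with h | h | h
      · have := h0 (h1' h)
        rcases this with h5 | h5 <;> omega
      · rcases (by omega : a % 2 = 0 ∨ a % 2 = 1) with h6 | h6
        · have := h0 h6
          rcases this with h5 | h5 <;> omega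
        · have := h1o h6
          omega
      · have := h1o (h3' h)
        omega
    by_cases hpar : (k % 4 = 1 → N % 2 = 0) ∧ (k % 4 = 3 → N % 2 = 1)
    · exact ⟨N, le_refl _, by omega, key N le_rfl hpar.1 hpar.2⟩
    · refine ⟨N - 1, by omega, by omega, key (N - 1) (by omega) ?_ ?_⟩
      · intro h; by_contra hcon; exact hpar ⟨fun _ => by omega, fun h' => by omega⟩
      · intro h; by_contra hcon; exact hpar ⟨fun h' => by omega, fun _ => by omega⟩
  have haa : a * a ≤ k := (Nat.mul_le_mul haN haN).trans h1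
  obtain ⟨u, v, w, huvw⟩ := three_squares (k - a * a) hmod
  have hr : k - a * a ≤ 4 * N := by
    rcases (by omega : a = N ∨ N = a + 1) with h3 | h3
    · have h4 : a * a = N * N := by rw [h3]
      omega
    · have h4 : N * N = a * a + 2 * a + 1 := by rw [h3]; ring
      omega
  set s₂ := (v ^ 2 + w ^ 2).toNat with hs₂
  have hs₂' : (s₂ : ℤ) = v ^ 2 + w ^ 2 := Int.toNat_of_nonneg (by positivity)
  have hcast : ((k - a * a : ℕ) : ℤ) = (k : ℤ) - a * a := by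
    rw [Nat.cast_sub haa]; push_cast; ring
  have hs₂r : s₂ ≤ k - a * a := by
    have : (s₂ : ℤ) ≤ ((k - a * a : ℕ) : ℤ) := by rw [hs₂', huvw]; nlinarith [sq_nonneg u]
    exact_mod_cast this
  refine ⟨k - s₂, s₂, by omega, ?_, S2_of_int s₂ v w hs₂', ?_⟩
  · refine S2_of_int _ a u ?_
    rw [Nat.cast_sub (hs₂r.trans (Nat.sub_le _ _)), hs₂']
    rw [hcast] at huvw
    linarith
  · have h5 : s₂ ≤ 4 * N := hs₂r.trans hr
    calc s₂ ^ 2 ≤ (4 * N) ^ 2 := Nat.pow_le_pow_left h5 2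
      _ = 16 * (N * N) := by ring
      _ ≤ 16 * k := by omega

end Pool.Agent.Lib.MP_be2ccc_co
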