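import Mathlib
import Pool.Agent.Lib.MP_be2ccc_co.Weigh

/-!
# The Goethals–Seidel array over a finite abelian group
-/

set_option autoImplicit false

namespace Pool.Agent.Lib.MP_be2ccc_co

open Matrix

section
variable {G : Type} [AddCommGroup G] [Fintype G]

/-- inner product of two blocks -/
def ip (F F' : G → G → ℤ) (x x' : G) : ℤ := ∑ y, F x y * F' x' y

/-- convolution -/
def cnv (f g : G → ℤ) (s : G) : ℤ := ∑ z, f z * g (s - z)

def bP (f : G → ℤ) : G → G → ℤ := fun x y => f (y - x)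
def bQ (f : G → ℤ) : G → G → ℤ := fun x y => f (-(x + y))
def bR (f : G → ℤ) : G → G → ℤ := fun x y => f (x + y)

lemma cnv_comm (f g : G → ℤ) (s : G) : cnv f g s = cnv g f s := by
  unfold cnv
  refine Fintype.sum_equiv (Equiv.subLeft s) _ _ ?_
  intro x
  simp only [Equiv.subLeft_apply]
  rw [show s - (s - x) = x by abel]; ring

lemma cor_neg (f g : G → ℤ) (t : G) : cor f g (-t) = cor g f t := by
  unfold cor
  refine Fintype.sum_equiv (Equiv.subRight t) _ _ ?_
  intro x
  simp only [Equiv.subRight_apply]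
  rw [show x - t + t = x by abel, ← sub_eq_add_neg]; ring

omit [AddCommGroup G] in
lemma ip_neg_left (F F' : G → G → ℤ) (x x' : G) : ip (-F) F' x x' = - ip F F' x x' := by
  simp [ip]

omit [AddCommGroup G] in
lemma ip_neg_right (F F' : G → G → ℤ) (x x' : G) : ip F (-F') x x' = - ip F F' x x' := by
  simp [ip]

lemma ip_PP (f g : G → ℤ) (x x' : G) : ip (bP f) (bP g) x x' = cor f g (x - x') := by
  unfold ip bP cor
  refine Fintype.sum_equiv (Equiv.subRight x) _ _ ?_
  intro y
  simp only [Equiv.subRight_apply]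
  rw [show y - x + (x - x') = y - x' by abel]

lemma ip_QQ (f g : G → ℤ) (x x' : G) : ip (bQ f) (bQ g) x x' = cor f g (x - x') := by
  unfold ip bQ cor
  refine Fintype.sum_equiv ((Equiv.addLeft x).trans (Equiv.neg G)) _ _ ?_
  intro y
  simp only [Equiv.trans_apply, Equiv.neg_apply, Equiv.coe_addLeft]
  rw [show -(x + y) + (x - x') = -(x' + y) by abel]

lemma ip_RR (f g : G → ℤ) (x x' : G) : ip (bR f) (bR g) x x' = cor f g (x' - x) := by
  unfold ip bR cor
  refine Fintype.sum_equiv (Equiv.addLeft x) _ _ ?_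
  intro y
  simp only [Equiv.coe_addLeft]
  rw [show x + y + (x' - x) = x' + y by abel]

lemma ip_PQ (f g : G → ℤ) (x x' : G) : ip (bP f) (bQ g) x x' = cnv f g (-(x + x')) := by
  unfold ip bP bQ cnv
  refine Fintype.sum_equiv (Equiv.subRight x) _ _ ?_
  intro y
  simp only [Equiv.subRight_apply]
  rw [show -(x + x') - (y - x) = -(x' + y) by abel]

lemma ip_QP (f g : G → ℤ) (x x' : G) : ip (bQ f) (bP g) x x' = cnv f g (-(x + x')) := by
  unfold ip bP bQ cnv
  refine Fintype.sum_equiv ((Equiv.addLeft x).trans (Equiv.neg G)) _ _ ?_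
  intro y
  simp only [Equiv.trans_apply, Equiv.neg_apply, Equiv.coe_addLeft]
  rw [show -(x + x') - -(x + y) = y - x' by abel]

lemma ip_PR (f g : G → ℤ) (x x' : G) : ip (bP f) (bR g) x x' = cor f g (x + x') := by
  unfold ip bP bR cor
  refine Fintype.sum_equiv (Equiv.subRight x) _ _ ?_
  intro y
  simp only [Equiv.subRight_apply]
  rw [show y - x + (x + x') = x' + y by abel]

lemma ip_RP (f g : G → ℤ) (x x' : G) : ip (bR f) (bP g) x x' = cor g f (x + x') := by
  unfold ip bP bR cor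
  refine Fintype.sum_equiv (Equiv.subRight x') _ _ ?_
  intro y
  simp only [Equiv.subRight_apply]
  rw [show y - x' + (x + x') = x + y by abel]; ring

lemma ip_QR (f g : G → ℤ) (x x' : G) : ip (bQ f) (bR g) x x' = cnv f g (x' - x) := by
  unfold ip bQ bR cnv
  refine Fintype.sum_equiv ((Equiv.addLeft x).trans (Equiv.neg G)) _ _ ?_
  intro y
  simp only [Equiv.trans_apply, Equiv.neg_apply, Equiv.coe_addLeft]
  rw [show x' - x - -(x + y) = x' + y by abel]

lemma ip_RQ (f g : G → ℤ) (x x' : G) : ip (bR f) (bQ g) x x' = cnv f g (x - x') := by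
  unfold ip bQ bR cnv
  refine Fintype.sum_equiv (Equiv.addLeft x) _ _ ?_
  intro y
  simp only [Equiv.coe_addLeft]
  rw [show x - x' - (x + y) = -(x' + y) by abel]

/-- the array of blocks -/
def gsB (a b c d : G → ℤ) : Fin 4 → Fin 4 → G → G → ℤ :=
  ![![bP a, bQ b, bQ c, bQ d],
    ![-bQ b, bP a, bR d, -bR c],
    ![-bQ c, -bR d, bP a, bR b],
    ![-bQ d, bR c, -bR b, bP a]]

lemma gs_orth (a b c d : G → ℤ) (k : ℤ) [DecidableEq G]
    (h : ∀ t, cor a a t + cor b b t + cor c c t + cor d d t = if t = 0 then k else 0)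
    (i i' : Fin 4) (x x' : G) :
    ∑ j, ip (gsB a b c d i j) (gsB a b c d i' j) x x' = if i = i' ∧ x = x' then k else 0 := by
  have h1 := h (x - x')
  have h2 : ∀ f : G → ℤ, cor f f (x' - x) = cor f f (x - x') := by
    intro f; rw [← cor_neg f f (x - x')]; congr 1; abel
  have h3 : ∀ f g : G → ℤ, cor f g (x' - x) = cor g f (x - x') := by
    intro f g; rw [← cor_neg f g (x - x')]; congr 1; abel
  simp only [sub_eq_zero] at h1
  rw [Fin.sum_univ_four]
  fin_cases i <;> fin_cases i' <;>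
    simp [gsB, ip_neg_left, ip_neg_right, ip_PP, ip_QQ, ip_RR, ip_PQ, ip_QP, ip_PR, ip_RP, ip_QR,
      ip_RQ, h3, cnv_comm b a, cnv_comm c a, cnv_comm d a, cnv_comm c b, cnv_comm d b,
      cnv_comm d c] <;>
    linarith

/-- **Goethals–Seidel.** -/
lemma Quad.hasWI [DecidableEq G] {k : ℕ} (h : Quad G k) : HasWI (Fin 4 × G) k := by
  obtain ⟨a, b, c, d, ha, hb, hc, hd, habcd⟩ := h
  refine ⟨Matrix.of fun p q => gsB a b c d p.1 q.1 p.2 q.2, ?_, ?_⟩
  · rintro ⟨i, x⟩ ⟨j, y⟩
    fin_cases i <;> fin_cases j <;>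
      simp [gsB, bP, bQ, bR, ha, hb, hc, hd, Tern.neg]
  · ext ⟨i, x⟩ ⟨i', x'⟩
    rw [Matrix.mul_apply, Fintype.sum_prod_type]
    have := gs_orth a b c d (k : ℤ) habcd i i' x x'
    simp only [ip] at this
    simp only [transpose_apply, Matrix.of_apply]
    rw [this, Matrix.smul_apply, Matrix.one_apply]
    simp only [Prod.mk.injEq]
    split_ifs <;> simp

end

lemma QuadOrd.hasW {k m : ℕ} (h : QuadOrd k m) : HasW (4 * m) k := by
  obtain ⟨G, _, _, _, hG, hQ⟩ := h
  exact hQ.hasWI.hasW (by simp [hG])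

end Pool.Agent.Lib.MP_be2ccc_co
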