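import Mathlib
import Pool.Agent.Lib.MP_be2ccc_co.Seq

/-!
# Golay pairs of length `2^e` inside `ZMod M`
-/

set_option autoImplicit false

namespace Pool.Agent.Lib.MP_be2ccc_co

section
variable {G : Type} [AddCommGroup G] [Fintype G]

lemma cor_add_sub (a b : G → ℤ) (t : G) :
    cor (fun x => a x + b x) (fun x => a x + b x) t + cor (fun x => a x - b x) (fun x => a x - b x) t =
      2 * (cor a a t + cor b b t) := by
  unfold cor
  rw [← Finset.sum_add_distrib, ← Finset.sum_add_distrib, Finset.mul_sum]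
  refine Finset.sum_congr rfl fun x _ => ?_
  ring

lemma cor_shift (b : G → ℤ) (l t : G) : cor (fun x => b (x - l)) (fun x => b (x - l)) t = cor b b t := by
  unfold cor
  refine Fintype.sum_equiv (Equiv.subRight l) _ _ ?_
  intro x
  simp only [Equiv.subRight_apply]
  rw [show x + t - l = x - l + t by abel]

end

lemma golay_aux (M : ℕ) [NeZero M] (e : ℕ) (he : 2 ^ e ≤ M) :
    ∃ a b : ZMod M → ℤ, (∀ x, Tern (a x)) ∧ (∀ x, Tern (b x)) ∧
      (∀ x, a x ≠ 0 → x.val < 2 ^ e) ∧ (∀ x, b x ≠ 0 → x.val < 2 ^ e) ∧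
      ∀ t, cor a a t + cor b b t = if t = 0 then (2 : ℤ) ^ (e + 1) else 0 := by
  induction e with
  | zero =>
    have h : ∀ t : ZMod M, cor (fun x : ZMod M => if x = 0 then (1 : ℤ) else 0)
        (fun x => if x = 0 then 1 else 0) t = if t = 0 then 1 else 0 := by
      intro t
      unfold cor
      rw [Finset.sum_eq_single (0 : ZMod M)]
      · simp
      · intro x _ hx; simp [hx]
      · simp
    refine ⟨fun x => if x = 0 then 1 else 0, fun x => if x = 0 then 1 else 0,
      fun x => Tern.ite Tern.one Tern.zero, fun x => Tern.ite Tern.one Tern.zero, ?_, ?_, ?_⟩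
    · intro x hx
      have : x = 0 := by by_contra h0; exact hx (if_neg h0)
      rw [this]; simp
    · intro x hx
      have : x = 0 := by by_contra h0; exact hx (if_neg h0)
      rw [this]; simp
    · intro t
      rw [h]
      split_ifs <;> norm_num
  | succ e ih =>
    have hpos : 0 < 2 ^ e := by positivity
    rw [pow_succ] at he
    obtain ⟨a, b, ha, hb, ha', hb', hab⟩ := ih (by omega)
    have hl : ((2 ^ e : ℕ) : ZMod M).val = 2 ^ e := ZMod.val_natCast_of_lt (by omega)
    have hsh : ∀ x : ZMod M, b (x - ((2 ^ e : ℕ) : ZMod M)) ≠ 0 → 2 ^ e ≤ x.val ∧ x.val < 2 ^ e * 2 := by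
      intro x hx
      have h1 := hb' _ hx
      set y := x - ((2 ^ e : ℕ) : ZMod M) with hy
      have hx' : x = y + ((2 ^ e : ℕ) : ZMod M) := by rw [hy]; ring
      have h2 : x.val = y.val + 2 ^ e := by
        rw [hx', ZMod.val_add_of_lt, hl]
        rw [hl]; omega
      omega
    have hdis : ∀ x : ZMod M, a x = 0 ∨ b (x - ((2 ^ e : ℕ) : ZMod M)) = 0 := by
      intro x
      by_contra hcon
      push Not at hcon
      have h1 := ha' x hcon.1
      have h2 := (hsh x hcon.2).1
      omega
    refine ⟨fun x => a x + b (x - ((2 ^ e : ℕ) : ZMod M)), fun x => a x - b (x - ((2 ^ e : ℕ) : ZMod M)),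
      ?_, ?_, ?_, ?_, ?_⟩
    · intro x
      show Tern (a x + b (x - ((2 ^ e : ℕ) : ZMod M)))
      rcases hdis x with h | h
      · rw [h, zero_add]; exact hb _
      · rw [h, add_zero]; exact ha _
    · intro x
      show Tern (a x - b (x - ((2 ^ e : ℕ) : ZMod M)))
      rcases hdis x with h | h
      · rw [h, zero_sub]; exact (hb _).neg
      · rw [h, sub_zero]; exact ha _
    · intro x hx
      rw [pow_succ]
      by_cases h : a x = 0
      · have : b (x - ((2 ^ e : ℕ) : ZMod M)) ≠ 0 := by
          intro h'; exact hx (by simp only [h, h', add_zero])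
        exact (hsh x this).2
      · have := ha' x h; omega
    · intro x hx
      rw [pow_succ]
      by_cases h : a x = 0
      · have : b (x - ((2 ^ e : ℕ) : ZMod M)) ≠ 0 := by
          intro h'; exact hx (by simp only [h, h', sub_zero])
        exact (hsh x this).2
      · have := ha' x h; omega
    · intro t
      rw [cor_add_sub a (fun x => b (x - ((2 ^ e : ℕ) : ZMod M))), cor_shift, hab]
      split_ifs
      · ring
      · ring

/-- pairs whose weight is a power of two -/
lemma pairOrd_two_pow (e : ℕ) : PairOrd (2 ^ (e + 1)) (2 ^ (e + 1) + 1) := by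
  have : NeZero (2 ^ (e + 1) + 1) := ⟨by omega⟩
  obtain ⟨a, b, ha, hb, -, -, hab⟩ := golay_aux (2 ^ (e + 1) + 1) e (by
    have : 2 ^ e ≤ 2 ^ (e + 1) := Nat.pow_le_pow_right (by norm_num) (by omega)
    omega)
  refine ⟨ZMod (2 ^ (e + 1) + 1), inferInstance, inferInstance, inferInstance, ZMod.card _, a, b, ha, hb, ?_⟩
  intro t
  rw [hab]
  push_cast; rfl

end Pool.Agent.Lib.MP_be2ccc_co
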