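import Mathlib
import Pool.Agent.Lib.MP_be2ccc_co.Seq

/-!
# Perfect ternary sequences from finite fields
Paley type pairs of weight `q` over `ZMod ((q+1)/2)` (`q ≡ 1 mod 4`) and perfect sequences of weight
`q²` over `ZMod (q²+q+1)` (`q` odd).
-/

set_option autoImplicit false

namespace Pool.Agent.Lib.MP_be2ccc_co

open Finset

section
variable {K L : Type} [Field K] [Fintype K] [DecidableEq K] [Field L] [Fintype L] [Algebra K L]

omit [DecidableEq K] in
/-- equidistribution of a functional along a direction killed by another one -/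
lemma functional_sum (lam mu : L →ₗ[K] K) (u : L) (hu : lam u = 1) (hmu : mu u = 0)
    (G H : K → ℤ) :
    (Fintype.card K : ℤ) * ∑ y : L, G (lam y) * H (mu y) = (∑ t : K, G t) * ∑ y : L, H (mu y) := by
  have h1 : ∀ c : K, ∑ y : L, G (lam y + c) * H (mu y) = ∑ y : L, G (lam y) * H (mu y) := by
    intro c
    refine Fintype.sum_equiv (Equiv.addRight (c • u)) _ _ ?_
    intro y
    simp [hu, hmu]
  have h2 : ∑ c : K, ∑ y : L, G (lam y + c) * H (mu y) =
      (Fintype.card K : ℤ) * ∑ y : L, G (lam y) * H (mu y) := by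
    rw [Finset.sum_congr rfl (fun c _ => h1 c), Finset.sum_const, Finset.card_univ, nsmul_eq_mul]
  rw [← h2, Finset.sum_comm, Finset.mul_sum]
  refine Finset.sum_congr rfl fun y _ => ?_
  rw [← Finset.sum_mul]
  congr 1
  exact Fintype.sum_equiv (Equiv.addLeft (lam y)) _ _ (fun c => rfl)

omit [Fintype K] [DecidableEq K] [Fintype L] in
lemma exists_dir (lam : L →ₗ[K] K) (hlam : lam ≠ 0) (w : L) (hw : w ∉ Set.range (algebraMap K L)) :
    ∃ u : L, lam u = 1 ∧ lam (w * u) = 0 := by
  by_contra hcon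
  push Not at hcon
  -- then ker (lam (w .)) ≤ ker lam
  have hw0 : w ≠ 0 := by
    rintro rfl; exact hw ⟨0, by simp⟩
  have hker : ∀ u : L, lam (w * u) = 0 → lam u = 0 := by
    intro u h
    by_contra h0
    refine hcon ((lam u)⁻¹ • u) ?_ ?_
    · rw [map_smul, smul_eq_mul, inv_mul_cancel₀ h0]
    · rw [mul_smul_comm, map_smul, h, smul_zero]
  obtain ⟨y1, hy1⟩ : ∃ y, lam y ≠ 0 := by
    by_contra h; push Not at h; exact hlam (LinearMap.ext h)
  set y0 := w⁻¹ * ((lam y1)⁻¹ • y1) with hy0
  have h1 : lam (w * y0) = 1 := by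
    rw [hy0, ← mul_assoc, mul_inv_cancel₀ hw0, one_mul, map_smul, smul_eq_mul, inv_mul_cancel₀ hy1]
  set c := lam y0 with hc
  have h2 : ∀ y : L, lam y = c * lam (w * y) := by
    intro y
    have h3 := hker (y - lam (w * y) • y0) (by
      rw [mul_sub, map_sub, mul_smul_comm, map_smul, h1, smul_eq_mul, mul_one, sub_self])
    rw [map_sub, map_smul, smul_eq_mul, sub_eq_zero] at h3
    rw [h3, mul_comm]
  -- lam ((1 - c w) y) = 0
  have h4 : ∀ y : L, lam ((1 - algebraMap K L c * w) * y) = 0 := by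
    intro y
    have : (1 - algebraMap K L c * w) * y = y - c • (w * y) := by
      rw [Algebra.smul_def]; ring
    rw [this, map_sub, map_smul, smul_eq_mul, h2 y, sub_self]
  have h5 : 1 - algebraMap K L c * w = 0 := by
    by_contra h0
    apply hy1
    have := h4 ((1 - algebraMap K L c * w)⁻¹ * y1)
    rwa [← mul_assoc, mul_inv_cancel₀ h0, one_mul] at this
  have h6 : algebraMap K L c * w = 1 := by linear_combination -h5
  have hc0 : algebraMap K L c ≠ 0 := by
    intro h; rw [h, zero_mul] at h6; exact zero_ne_one h6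
  apply hw
  refine ⟨c⁻¹, ?_⟩
  rw [map_inv₀]
  exact inv_eq_of_mul_eq_one_right h6

/-- the summand -/
def Fw (lam : L →ₗ[K] K) (w y : L) : ℤ := quadraticChar K (lam y) * quadraticChar K (lam (w * y))

lemma Fw_sum_zero (hK : ringChar K ≠ 2) (lam : L →ₗ[K] K) (hlam : lam ≠ 0) (w : L)
    (hw : w ∉ Set.range (algebraMap K L)) : ∑ y : L, Fw lam w y = 0 := by
  obtain ⟨u, hu, hmu⟩ := exists_dir lam hlam w hw
  have h := functional_sum lam (lam.comp (LinearMap.mulLeft K w)) u hu (by simpa using hmu)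
    (fun t => quadraticChar K t) (fun t => quadraticChar K t)
  rw [quadraticChar_sum_zero hK, zero_mul] at h
  have hq : (Fintype.card K : ℤ) ≠ 0 := by
    have := Fintype.card_pos (α := K); positivity
  rcases mul_eq_zero.mp h with h | h
  · exact absurd h hq
  · simpa [Fw] using h

lemma Fw_sum_one (lam : L →ₗ[K] K) (hlam : lam ≠ 0) :
    (Fintype.card K : ℤ) * ∑ y : L, Fw lam 1 y = ((Fintype.card K : ℤ) - 1) * Fintype.card L := by
  obtain ⟨y1, hy1⟩ : ∃ y, lam y ≠ 0 := by
    by_contra h; push Not at h; exact hlam (LinearMap.ext h)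
  have h := functional_sum lam (0 : L →ₗ[K] K) ((lam y1)⁻¹ • y1)
    (by rw [map_smul, smul_eq_mul, inv_mul_cancel₀ hy1]) (by simp)
    (fun t => quadraticChar K t ^ 2) (fun _ => 1)
  have h2 : ∑ t : K, quadraticChar K t ^ 2 = (Fintype.card K : ℤ) - 1 := by
    have h3 : ∀ t : K, quadraticChar K t ^ 2 = 1 - if t = 0 then 1 else 0 := by
      intro t
      by_cases ht : t = 0
      · simp [ht]
      · rw [quadraticChar_sq_one ht, if_neg ht]; simp
    rw [Finset.sum_congr rfl (fun t _ => h3 t), Finset.sum_sub_distrib]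
    simp
  rw [h2] at h
  simp only [mul_one, Finset.sum_const, Finset.card_univ, nsmul_eq_mul] at h
  rw [← h]
  congr 1
  refine Finset.sum_congr rfl fun y _ => ?_
  rw [Fw, one_mul, sq]

omit [Fintype L] in
lemma Fw_smul (lam : L →ₗ[K] K) (w y : L) (c : Kˣ) :
    Fw lam w (algebraMap K L c * y) = Fw lam w y := by
  unfold Fw
  have h1 : lam (algebraMap K L c * y) = c * lam y := by
    rw [← Algebra.smul_def, map_smul, smul_eq_mul]
  have h2 : lam (w * (algebraMap K L c * y)) = c * lam (w * y) := by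
    rw [← Algebra.smul_def, mul_smul_comm, map_smul, smul_eq_mul]
  rw [h1, h2, map_mul, map_mul]
  have h3 : quadraticChar K (c : K) ^ 2 = 1 := quadraticChar_sq_one c.ne_zero
  linear_combination (quadraticChar K (lam y) * quadraticChar K (lam (w * y))) * h3

omit [Fintype L] in
lemma Fw_zero (lam : L →ₗ[K] K) (w : L) : Fw lam w 0 = 0 := by simp [Fw]

/-- **Ternary sequences from a field extension.** -/
theorem paley_seq (hK : ringChar K ≠ 2) (E m : ℕ) (hE : 0 < E) (hm : Odd m)
    (hcard : (Fintype.card K - 1) * (E * m) = Fintype.card L - 1) [NeZero m] :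
    ∃ a : Fin E → ZMod m → ℤ, (∀ e i, Tern (a e i)) ∧
      ∀ j : ZMod m, (Fintype.card K : ℤ) * ∑ e, cor (a e) (a e) j =
        if j = 0 then (Fintype.card L : ℤ) else 0 := by
  classical
  set q := Fintype.card K with hq
  have hq1 : 1 < q := Fintype.one_lt_card
  have hLc : 1 < Fintype.card L := Fintype.one_lt_card
  obtain ⟨g, hg⟩ := IsCyclic.exists_generator (α := Lˣ)
  have hord : orderOf g = Fintype.card L - 1 := by
    rw [orderOf_eq_card_of_forall_mem_zpowers hg, Nat.card_eq_fintype_card, Fintype.card_units]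
  rw [← hcard] at hord
  -- units of K inside units of L
  let φ : Kˣ →* Lˣ := Units.map (algebraMap K L).toMonoidHom
  have hφinj : Function.Injective φ := Units.map_injective (algebraMap K L).injective
  have hφ : ∀ c : Kˣ, φ c ^ (q - 1) = 1 := by
    intro c
    rw [← map_pow, hq]
    have : c ^ (Fintype.card K - 1) = 1 := by
      have := pow_card_eq_one (x := c)
      rwa [Fintype.card_units] at this
    rw [this, map_one]
  -- key congruence
  have hkey : ∀ (c c' : Kˣ) (s s' : ℕ), φ c * g ^ s = φ c' * g ^ s' → s ≡ s' [MOD E * m] := by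
    intro c c' s s' h
    have h1 := congrArg (fun x => x ^ (q - 1)) h
    simp only [mul_pow, hφ, one_mul] at h1
    rw [← pow_mul, ← pow_mul, pow_eq_pow_iff_modEq, hord, mul_comm s, mul_comm s'] at h1
    exact Nat.ModEq.mul_left_cancel' (by omega) h1
  have hsplit : ∀ (e e' : Fin E) (i i' : ZMod m),
      (e : ℕ) + 2 * E * i.val ≡ e' + 2 * E * i'.val [MOD E * m] → e = e' ∧ i = i' := by
    intro e e' i i' h
    have h1 : (e : ℕ) ≡ e' [MOD E] := by
      have h2 := Nat.ModEq.of_mul_right m h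
      have h3 : ∀ x y : ℕ, x + 2 * E * y ≡ x [MOD E] := by
        intro x y
        have : x + 2 * E * y = x + E * (2 * y) := by ring
        rw [this]; exact Nat.add_mul_mod_self_left _ _ _
      exact ((h3 _ _).symm.trans h2).trans (h3 _ _)
    have h4 : e = e' := by
      apply Fin.ext
      have := Nat.ModEq.eq_of_lt_of_lt h1 e.2 e'.2
      exact this
    refine ⟨h4, ?_⟩
    rw [h4] at h
    have h5 := Nat.ModEq.add_left_cancel' _ h
    have h6 : E * (2 * i.val) ≡ E * (2 * i'.val) [MOD E * m] := by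
      convert h5 using 1 <;> ring
    have h7 := Nat.ModEq.mul_left_cancel' hE.ne' h6
    have h8 : i.val ≡ i'.val [MOD m] :=
      Nat.ModEq.cancel_left_of_coprime (by rw [Nat.coprime_iff_gcd_eq_one.symm]; exact hm.coprime_two_right) h7
    exact ZMod.val_injective m (Nat.ModEq.eq_of_lt_of_lt h8 (ZMod.val_lt i) (ZMod.val_lt i'))
  -- the parametrisation of the units of `L`
  let Φ : Kˣ × (Fin E × ZMod m) → Lˣ := fun z => φ z.1 * g ^ ((z.2.1 : ℕ) + 2 * E * z.2.2.val)
  have hΦinj : Function.Injective Φ := by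
    rintro ⟨c, e, i⟩ ⟨c', e', i'⟩ h
    have h1 := hkey c c' _ _ h
    obtain ⟨rfl, rfl⟩ := hsplit e e' i i' h1
    have h2 : φ c = φ c' := mul_right_cancel h
    rw [hφinj h2]
  have hΦcard : Fintype.card (Kˣ × (Fin E × ZMod m)) = Fintype.card Lˣ := by
    rw [Fintype.card_prod, Fintype.card_prod, Fintype.card_units, Fintype.card_units,
      Fintype.card_fin, ZMod.card, hcard]
  have hΦ : Function.Bijective Φ := (Fintype.bijective_iff_injective_and_card Φ).mpr ⟨hΦinj, hΦcard⟩
  -- `g ^ (E m)` comes from `K`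
  obtain ⟨c0, hc0⟩ : ∃ c0 : Kˣ, φ c0 = g ^ (E * m) := by
    obtain ⟨⟨c, e, i⟩, h⟩ := hΦ.2 (g ^ (E * m))
    have h1 : φ c * g ^ ((e : ℕ) + 2 * E * i.val) = φ 1 * g ^ (E * m) := by
      rw [map_one, one_mul]; exact h
    have h2 := hkey c 1 _ _ h1
    have h3 : (e : ℕ) + 2 * E * i.val ≡ ((⟨0, hE⟩ : Fin E) : ℕ) + 2 * E * (0 : ZMod m).val [MOD E * m] := by
      rw [ZMod.val_zero, mul_zero]
      exact h2.trans (by simp [Nat.ModEq])
    obtain ⟨he, hi⟩ := hsplit e ⟨0, hE⟩ i 0 h3
    refine ⟨c, ?_⟩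
    have h4 : Φ (c, e, i) = φ c := by
      simp [Φ, he, hi]
    rw [← h4]; exact h
  -- a nonzero functional
  obtain ⟨lam, hlam⟩ : ∃ lam : L →ₗ[K] K, lam ≠ 0 := by
    have : Nontrivial (Module.Dual K L) := inferInstance
    exact exists_ne 0
  let F : ℕ → ℤ := fun t => quadraticChar K (lam ((g ^ t : Lˣ) : L))
  have hper : ∀ t n : ℕ, F (t + 2 * (E * m) * n) = F t := by
    intro t n
    simp only [F]
    have h1 : ((g ^ (t + 2 * (E * m) * n) : Lˣ) : L) =
        algebraMap K L ((c0 ^ n : Kˣ) ^ 2 : Kˣ) * ((g ^ t : Lˣ) : L) := by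
      have h2 : g ^ (t + 2 * (E * m) * n) = φ (c0 ^ n) ^ 2 * g ^ t := by
        rw [map_pow, hc0, pow_add, mul_comm, ← pow_mul, ← pow_mul]
        congr 2; ring
      rw [h2]
      simp [φ]
    rw [h1, ← Algebra.smul_def, map_smul, smul_eq_mul, map_mul, Units.val_pow_eq_pow_val, map_pow,
      quadraticChar_sq_one (Units.ne_zero _), one_mul]
  refine ⟨fun e i => F ((e : ℕ) + 2 * E * i.val), ?_, ?_⟩
  · intro e i
    simp only [F]
    rcases quadraticChar_isQuadratic K (lam ((g ^ ((e : ℕ) + 2 * E * i.val) : Lˣ) : L)) with h | h | h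
    · exact Or.inl h
    · exact Or.inr (Or.inl h)
    · exact Or.inr (Or.inr h)
  · intro j
    set w : L := ((g ^ (2 * E * j.val) : Lˣ) : L) with hw
    have h1 : ∀ e : Fin E, cor (fun i : ZMod m => F ((e : ℕ) + 2 * E * i.val))
        (fun i : ZMod m => F ((e : ℕ) + 2 * E * i.val)) j =
        ∑ i : ZMod m, Fw lam w ((g ^ ((e : ℕ) + 2 * E * i.val) : Lˣ) : L) := by
      intro e
      unfold cor Fw
      refine Finset.sum_congr rfl fun i _ => ?_
      have h2 : F ((e : ℕ) + 2 * E * (i + j).val) =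
          quadraticChar K (lam (w * ((g ^ ((e : ℕ) + 2 * E * i.val) : Lˣ) : L))) := by
        have h3 : (i + j).val + m * ((i.val + j.val) / m) = i.val + j.val := by
          rw [ZMod.val_add]; exact Nat.mod_add_div _ _
        rw [← hper _ ((i.val + j.val) / m)]
        simp only [F]
        rw [hw, ← Units.val_mul, ← pow_add]
        congr 4
        calc (e : ℕ) + 2 * E * (i + j).val + 2 * (E * m) * ((i.val + j.val) / m)
            = e + 2 * E * ((i + j).val + m * ((i.val + j.val) / m)) := by ring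
          _ = 2 * E * j.val + (e + 2 * E * i.val) := by rw [h3]; ring
      show F _ * F _ = _
      rw [h2]
    have h4 : ∑ y : L, Fw lam w y = ((q : ℤ) - 1) * ∑ e : Fin E, ∑ i : ZMod m,
        Fw lam w ((g ^ ((e : ℕ) + 2 * E * i.val) : Lˣ) : L) := by
      have h5 : ∑ y : L, Fw lam w y = ∑ y : Lˣ, Fw lam w (y : L) := by
        rw [← Finset.sum_erase Finset.univ (Fw_zero lam w)]
        symm
        refine Finset.sum_bij (fun (y : Lˣ) _ => (y : L)) ?_ ?_ ?_ ?_
        · intro y _; simp
        · intro y _ y' _ h; exact Units.ext h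
        · intro y hy
          simp only [Finset.mem_erase, Finset.mem_univ, and_true] at hy
          exact ⟨Units.mk0 y hy, Finset.mem_univ _, rfl⟩
        · intro y _; rfl
      rw [h5, ← hΦ.sum_comp (fun y : Lˣ => Fw lam w (y : L))]
      rw [Fintype.sum_prod_type]
      have h6 : ∀ c : Kˣ, ∑ z : Fin E × ZMod m, Fw lam w ((Φ (c, z) : Lˣ) : L) =
          ∑ e : Fin E, ∑ i : ZMod m, Fw lam w ((g ^ ((e : ℕ) + 2 * E * i.val) : Lˣ) : L) := by
        intro c
        rw [Fintype.sum_prod_type]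
        refine Finset.sum_congr rfl fun e _ => Finset.sum_congr rfl fun i _ => ?_
        have : ((Φ (c, e, i) : Lˣ) : L) = algebraMap K L c * ((g ^ ((e : ℕ) + 2 * E * i.val) : Lˣ) : L) := by
          simp [Φ, φ]
        rw [this, Fw_smul]
      rw [Finset.sum_congr rfl (fun c _ => h6 c), Finset.sum_const, Finset.card_univ, Fintype.card_units,
        nsmul_eq_mul, Nat.cast_sub hq1.le, Nat.cast_one]
    rw [Finset.sum_congr rfl (fun e _ => h1 e)]
    have hq1' : ((q : ℤ) - 1) ≠ 0 := by
      have : (1 : ℤ) < q := by exact_mod_cast hq1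
      omega
    by_cases hj : j = 0
    · rw [if_pos hj]
      have hw1 : w = 1 := by rw [hw, hj]; simp
      rw [hw1] at h4 ⊢
      have h7 := Fw_sum_one lam hlam
      rw [h4] at h7
      have h8 : ((q : ℤ) - 1) * ((q : ℤ) * ∑ e : Fin E, ∑ i : ZMod m,
        Fw lam 1 ((g ^ ((e : ℕ) + 2 * E * i.val) : Lˣ) : L)) = ((q : ℤ) - 1) * Fintype.card L := by
        rw [← h7]; ring
      exact mul_left_cancel₀ hq1' h8
    · rw [if_neg hj]
      have hwK : w ∉ Set.range (algebraMap K L) := by
        rintro ⟨c, hc⟩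
        have hcne : c ≠ 0 := by
          rintro rfl
          rw [map_zero, hw] at hc
          exact (Units.ne_zero _) hc.symm
        have h9 : φ (Units.mk0 c hcne) * g ^ 0 = φ 1 * g ^ (2 * E * j.val) := by
          rw [pow_zero, mul_one, map_one, one_mul]
          ext
          simpa [φ, hw] using hc
        have h10 := hkey _ _ _ _ h9
        have h11 : ((⟨0, hE⟩ : Fin E) : ℕ) + 2 * E * (0 : ZMod m).val ≡
            ((⟨0, hE⟩ : Fin E) : ℕ) + 2 * E * j.val [MOD E * m] := by
          simpa using h10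
        exact hj (hsplit _ _ _ _ h11).2.symm
      have h12 := Fw_sum_zero hK lam hlam w hwK
      rw [h4] at h12
      rcases mul_eq_zero.mp h12 with h | h
      · exact absurd h hq1'
      · rw [h, mul_zero]

end

end Pool.Agent.Lib.MP_be2ccc_co
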