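import Mathlib
import Pool.Agent.Lib.MP_be2ccc_co.Paley

/-!
# Pairs of prime power weight
-/

set_option autoImplicit false

namespace Pool.Agent.Lib.MP_be2ccc_co

/-- fields `K ⊂ L` with `|K| = p^f`, `|L| = (p^f)^d`, packaged with the sequences. -/
lemma seq_of_prime_pow (p f d E m : ℕ) (hp : p.Prime) (hp2 : p ≠ 2) (hf : f ≠ 0) (hd : d ≠ 0)
    (hE : 0 < E) (hm : Odd m) (hcard : (p ^ f - 1) * (E * m) = (p ^ f) ^ d - 1) [NeZero m] :
    ∃ a : Fin E → ZMod m → ℤ, (∀ e i, Tern (a e i)) ∧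
      ∀ j : ZMod m, ((p ^ f : ℕ) : ℤ) * ∑ e, cor (a e) (a e) j =
        if j = 0 then (((p ^ f) ^ d : ℕ) : ℤ) else 0 := by
  classical
  have : Fact p.Prime := ⟨hp⟩
  have : NeZero d := ⟨hd⟩
  let K := GaloisField p f
  let _ : Fintype K := Fintype.ofFinite K
  have hK : Fintype.card K = p ^ f := by
    rw [← Nat.card_eq_fintype_card]; exact GaloisField.card p f hf
  let L := FiniteField.Extension K p d
  let _ : Fintype L := Fintype.ofFinite L
  have hL : Fintype.card L = (p ^ f) ^ d := by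
    rw [← Nat.card_eq_fintype_card, FiniteField.natCard_extension, GaloisField.card p f hf]
  have hchar : ringChar K ≠ 2 := by
    rw [ringChar.eq K p]; exact hp2
  obtain ⟨a, ha, h⟩ := paley_seq (K := K) (L := L) hchar E m hE hm (by rw [hK, hL]; exact hcard)
  refine ⟨a, ha, fun j => ?_⟩
  have := h j
  rw [hK, hL] at this
  exact this

lemma aux_sq (q : ℕ) (hq : 0 < q) : (q - 1) * (q + 1) = q ^ 2 - 1 := by
  obtain ⟨r, rfl⟩ : ∃ r, q = r + 1 := ⟨q - 1, by omega⟩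
  have : (r + 1) ^ 2 = r * (r + 1 + 1) + 1 := by ring
  rw [this]; simp

lemma aux_cube (q : ℕ) (hq : 0 < q) : (q - 1) * (1 * (q ^ 2 + q + 1)) = q ^ 3 - 1 := by
  obtain ⟨r, rfl⟩ : ∃ r, q = r + 1 := ⟨q - 1, by omega⟩
  have : (r + 1) ^ 3 = r * (1 * ((r + 1) ^ 2 + (r + 1) + 1)) + 1 := by ring
  rw [this]; simp

lemma pairOrd_paley (p f : ℕ) (hp : p.Prime) (hf : f ≠ 0) (hq : p ^ f % 4 = 1) :
    PairOrd (p ^ f) ((p ^ f + 1) / 2) := by
  have hp2 : p ≠ 2 := by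
    rintro rfl
    have : 2 ∣ 2 ^ f := dvd_pow_self 2 hf
    omega
  set q := p ^ f with hqd
  have hq0 : 0 < q := Nat.pow_pos hp.pos
  obtain ⟨m, hm⟩ : ∃ m, q + 1 = 2 * m := ⟨(q + 1) / 2, by omega⟩
  have hm' : (q + 1) / 2 = m := by omega
  have hodd : Odd m := by rw [Nat.odd_iff]; omega
  have : NeZero m := ⟨by rintro rfl; omega⟩
  obtain ⟨a, ha, h⟩ := seq_of_prime_pow p f 2 2 m hp hp2 hf (by norm_num) (by norm_num) hodd (by
    rw [← hqd, ← hm]; exact aux_sq q hq0)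
  rw [hm']
  refine ⟨ZMod m, inferInstance, inferInstance, inferInstance, ZMod.card m, a 0, a 1, ha 0, ha 1, ?_⟩
  intro t
  have h1 := h t
  rw [← hqd, Fin.sum_univ_two] at h1
  have hq' : (q : ℤ) ≠ 0 := by positivity
  by_cases ht : t = 0
  · rw [if_pos ht] at h1 ⊢
    have : ((q ^ 2 : ℕ) : ℤ) = q * q := by push_cast; ring
    rw [this] at h1
    exact mul_left_cancel₀ hq' h1
  · rw [if_neg ht] at h1 ⊢
    rcases mul_eq_zero.mp h1 with h | h
    · exact absurd h hq'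
    · exact h

lemma pairOrd_sq (p f : ℕ) (hp : p.Prime) (hp2 : p ≠ 2) (hf : f ≠ 0) :
    PairOrd ((p ^ f) ^ 2) ((p ^ f) ^ 2 + p ^ f + 1) := by
  set q := p ^ f with hqd
  have hq0 : 0 < q := Nat.pow_pos hp.pos
  have hqodd : Odd q := (hp.odd_of_ne_two hp2).pow
  have hodd : Odd (q ^ 2 + q + 1) := by
    have : Even (q ^ 2 + q) := (hqodd.pow).add_odd hqodd
    exact this.add_one
  have : NeZero (q ^ 2 + q + 1) := ⟨by omega⟩
  obtain ⟨a, ha, h⟩ := seq_of_prime_pow p f 3 1 (q ^ 2 + q + 1) hp hp2 hf (by norm_num) (by norm_num) hodd (by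
    rw [← hqd]; exact aux_cube q hq0)
  refine ⟨ZMod (q ^ 2 + q + 1), inferInstance, inferInstance, inferInstance, ZMod.card _, a 0, 0, ha 0,
    fun _ => Tern.zero, ?_⟩
  intro t
  have h1 := h t
  rw [← hqd, Fin.sum_univ_one] at h1
  have h0 : cor (0 : ZMod (q ^ 2 + q + 1) → ℤ) 0 t = 0 := by simp [cor]
  rw [h0, add_zero]
  have hq' : (q : ℤ) ≠ 0 := by positivity
  by_cases ht : t = 0
  · rw [if_pos ht] at h1 ⊢
    have : ((q ^ 3 : ℕ) : ℤ) = q * ((q ^ 2 : ℕ) : ℤ) := by push_cast; ring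
    rw [this] at h1
    exact mul_left_cancel₀ hq' h1
  · rw [if_neg ht] at h1 ⊢
    rcases mul_eq_zero.mp h1 with h | h
    · exact absurd h hq'
    · exact h

end Pool.Agent.Lib.MP_be2ccc_co
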