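import Mathlib
import Pool.Agent.Lib.MP_be2ccc_co.PaleyB
import Pool.Agent.Lib.MP_be2ccc_co.Golay
import Pool.Agent.Lib.MP_be2ccc_co.Decomp
import Pool.Agent.Lib.MP_be2ccc_co.GS

/-!
# Bounds for the orders
-/

set_option autoImplicit false

namespace Pool.Agent.Lib.MP_be2ccc_co

lemma S2_coprime_left {a b : ℕ} (hab : a.Coprime b) (ha : a ≠ 0) (hb : b ≠ 0) (h : S2 (a * b)) : S2 a := by
  unfold S2 at *
  rw [Nat.eq_sq_add_sq_iff] at *
  intro q hq h3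
  have hqp := Nat.prime_of_mem_primeFactors hq
  have : Fact q.Prime := ⟨hqp⟩
  have h1 := h q (by
    rw [Nat.primeFactors_mul ha hb]; exact Finset.mem_union_left _ hq) h3
  rw [padicValNat.mul ha hb] at h1
  have h2 : padicValNat q b = 0 := by
    apply padicValNat.eq_zero_of_not_dvd
    intro hqb
    have := Nat.dvd_gcd (Nat.dvd_of_mem_primeFactors hq) hqb
    rw [hab] at this
    exact hqp.one_lt.ne' (Nat.dvd_one.mp this)
  rwa [h2, add_zero] at h1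

lemma prime_pow_case (p n : ℕ) (hp : p.Prime) (hn : 0 < n) (h : S2 (p ^ n)) :
    ∃ m, Odd m ∧ 2 * m ≤ 3 * p ^ n ∧ PairOrd (p ^ n) m := by
  rcases hp.eq_two_or_odd with rfl | hodd
  · refine ⟨2 ^ n + 1, ?_, ?_, ?_⟩
    · exact (Nat.even_pow.mpr ⟨even_two, hn.ne'⟩).add_one
    · have : 2 ^ 1 ≤ 2 ^ n := Nat.pow_le_pow_right (by norm_num) hn
      omega
    · obtain ⟨e, rfl⟩ : ∃ e, n = e + 1 := ⟨n - 1, by omega⟩
      exact pairOrd_two_pow e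
  · rcases (by omega : p % 4 = 1 ∨ p % 4 = 3) with h1 | h3
    · have hq : p ^ n % 4 = 1 := by rw [Nat.pow_mod, h1, one_pow]; norm_num
      refine ⟨(p ^ n + 1) / 2, ?_, ?_, pairOrd_paley p n hp hn.ne' hq⟩
      · rw [Nat.odd_iff]; omega
      · have : 0 < p ^ n := Nat.pow_pos hp.pos
        omega
    · have : Fact p.Prime := ⟨hp⟩
      unfold S2 at h
      rw [Nat.eq_sq_add_sq_iff] at h
      have h4 := h p (by simp [Nat.primeFactors_prime_pow hn.ne' hp]) h3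
      rw [padicValNat.prime_pow] at h4
      obtain ⟨f, hf⟩ := h4
      have hf' : f ≠ 0 := by omega
      have hnf : p ^ n = (p ^ f) ^ 2 := by rw [← pow_mul]; congr 1; omega
      have hp2 : p ≠ 2 := by rintro rfl; omega
      refine ⟨(p ^ f) ^ 2 + p ^ f + 1, ?_, ?_, ?_⟩
      · have hqodd : Odd (p ^ f) := (hp.odd_of_ne_two hp2).pow
        exact ((hqodd.pow).add_odd hqodd).add_one
      · rw [hnf]
        have h5 : 3 ≤ p ^ f := by
          calc 3 ≤ p := by omega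
            _ ≤ p ^ f := Nat.le_self_pow hf' p
        nlinarith
      · rw [hnf]; exact pairOrd_sq p f hp hp2 hf'

lemma pairOrd_bound_aux (s : ℕ) : 1 < s → S2 s →
    ∃ m, Odd m ∧ 3 * m ≤ 5 ^ (s.primeFactors.card) * s ∧ PairOrd s m := by
  induction s using Nat.recOnPosPrimePosCoprime with
  | prime_pow p n hp hn =>
    intro _ h
    obtain ⟨m, h1, h2, h3⟩ := prime_pow_case p n hp hn h
    refine ⟨m, h1, ?_, h3⟩
    rw [Nat.primeFactors_prime_pow hn.ne' hp, Finset.card_singleton]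
    omega
  | zero => intro h; omega
  | one => intro h; omega
  | coprime a b ha hb hab iha ihb =>
    intro _ h
    obtain ⟨m, h1, h2, h3⟩ := iha ha (S2_coprime_left hab (by omega) (by omega) h)
    obtain ⟨m', h1', h2', h3'⟩ := ihb hb (S2_coprime_left hab.symm (by omega) (by omega) (by rwa [mul_comm]))
    refine ⟨m * m' * 3, ?_, ?_, pairOrd_mul h3 h3'⟩
    · exact (h1.mul h1').mul (by decide)
    · rw [hab.primeFactors_mul, Finset.card_union_of_disjoint hab.disjoint_primeFactors, pow_add]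
      calc 3 * (m * m' * 3) = (3 * m) * (3 * m') := by ring
        _ ≤ (5 ^ a.primeFactors.card * a) * (5 ^ b.primeFactors.card * b) := Nat.mul_le_mul h2 h2'
        _ = 5 ^ a.primeFactors.card * 5 ^ b.primeFactors.card * (a * b) := by ring

/-- `5 ^ ω(s) = O(s^ε)` -/
lemma omega_bound (ε : ℝ) (hε : 0 < ε) : ∃ C : ℝ, 1 ≤ C ∧ ∀ s : ℕ, 1 ≤ s →
    (5 : ℝ) ^ (s.primeFactors.card) ≤ C * (s : ℝ) ^ ε := by
  obtain ⟨P, hP⟩ := exists_nat_gt ((5 : ℝ) ^ (1 / ε))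
  refine ⟨5 ^ P, one_le_pow₀ (by norm_num), ?_⟩
  intro s hs
  have h1 : (5 : ℝ) ^ (s.primeFactors.card) = ∏ p ∈ s.primeFactors, (5 : ℝ) := by
    rw [Finset.prod_const]
  have h2 : ∏ p ∈ s.primeFactors, (5 : ℝ) ≤ ∏ p ∈ s.primeFactors, ((if p < P then 5 else 1) * (p : ℝ) ^ ε) := by
    refine Finset.prod_le_prod (fun _ _ => by norm_num) ?_
    intro p hp
    have hp1 : (1 : ℝ) ≤ p := by exact_mod_cast (Nat.prime_of_mem_primeFactors hp).one_lt.le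
    split_ifs with h
    · have : (1 : ℝ) ≤ (p : ℝ) ^ ε := Real.one_le_rpow hp1 hε.le
      linarith
    · push Not at h
      rw [one_mul]
      have h3 : (5 : ℝ) ^ (1 / ε) ≤ p := hP.le.trans (by exact_mod_cast h)
      have h4 := Real.rpow_le_rpow (by positivity) h3 hε.le
      rwa [← Real.rpow_mul (by norm_num), one_div_mul_cancel hε.ne', Real.rpow_one] at h4
  rw [h1]
  refine h2.trans ?_
  rw [Finset.prod_mul_distrib]
  have h5 : ∏ p ∈ s.primeFactors, (if p < P then (5 : ℝ) else 1) ≤ 5 ^ P := by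
    rw [← Finset.prod_filter, Finset.prod_const]
    apply pow_le_pow_right₀ (by norm_num)
    calc (s.primeFactors.filter (· < P)).card ≤ (Finset.range P).card := by
          apply Finset.card_le_card
          intro p hp
          simp only [Finset.mem_filter] at hp
          exact Finset.mem_range.mpr hp.2
      _ = P := Finset.card_range P
  have h6 : ∏ p ∈ s.primeFactors, (p : ℝ) ^ ε ≤ (s : ℝ) ^ ε := by
    rw [Real.finsetProd_rpow _ _ (fun _ _ => by positivity)]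
    apply Real.rpow_le_rpow (by positivity) _ hε.le
    have : ∏ p ∈ s.primeFactors, p ≤ s := Nat.le_of_dvd (by omega) (Nat.prod_primeFactors_dvd s)
    calc ∏ i ∈ s.primeFactors, (i : ℝ) = ((∏ p ∈ s.primeFactors, p : ℕ) : ℝ) := by push_cast; rfl
      _ ≤ s := by exact_mod_cast this
  exact mul_le_mul h5 h6 (Finset.prod_nonneg fun _ _ => by positivity) (by positivity)

/-- pairs of weight `s` in odd order `O(s^(1+ε))`. -/
lemma pairOrd_bound (ε : ℝ) (hε : 0 < ε) : ∃ C : ℝ, 1 ≤ C ∧ ∀ s : ℕ, S2 s →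
    ∃ m : ℕ, Odd m ∧ (m : ℝ) ≤ C * (max (s : ℝ) 1) ^ (1 + ε) ∧ PairOrd s m := by
  obtain ⟨C, hC1, hC⟩ := omega_bound ε hε
  refine ⟨C, hC1, ?_⟩
  intro s hs
  rcases (by omega : s = 0 ∨ s = 1 ∨ 1 < s) with rfl | rfl | h1
  · exact ⟨1, odd_one, by simpa using hC1, pairOrd_zero⟩
  · exact ⟨1, odd_one, by simpa using hC1, pairOrd_one⟩
  · obtain ⟨m, hm, hm', hP⟩ := pairOrd_bound_aux s h1 hs
    refine ⟨m, hm, ?_, hP⟩
    have hs1 : (1 : ℝ) ≤ s := by exact_mod_cast h1.le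
    rw [max_eq_left hs1]
    have h2 : (m : ℝ) ≤ 5 ^ (s.primeFactors.card) * s := by
      have : m ≤ 5 ^ (s.primeFactors.card) * s := by omega
      exact_mod_cast this
    calc (m : ℝ) ≤ 5 ^ (s.primeFactors.card) * s := h2
      _ ≤ (C * (s : ℝ) ^ ε) * s := by gcongr; exact hC s h1.le
      _ = C * (s : ℝ) ^ (1 + ε) := by
          rw [Real.rpow_add (by linarith), Real.rpow_one]; ring

lemma pairOrd_four_pow (j : ℕ) : ∃ m, Odd m ∧ m ≤ 2 * 4 ^ j ∧ PairOrd (4 ^ j) m := by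
  rcases Nat.eq_zero_or_pos j with rfl | hj
  · exact ⟨1, odd_one, by norm_num, by simpa using pairOrd_one⟩
  · obtain ⟨e, he⟩ : ∃ e, 2 * j = e + 1 := ⟨2 * j - 1, by omega⟩
    have h4 : (4 : ℕ) ^ j = 2 ^ (e + 1) := by rw [← he, pow_mul]; norm_num
    rw [h4]
    refine ⟨2 ^ (e + 1) + 1, ?_, ?_, pairOrd_two_pow e⟩
    · exact (Nat.even_pow.mpr ⟨even_two, by omega⟩).add_one
    · have : 0 < 2 ^ (e + 1) := by positivity
      omega

/-- **Orders `4 m`, `m` odd.** -/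
theorem quadOrd_bound (ε : ℝ) (hε : 0 < ε) : ∃ C : ℝ, 1 ≤ C ∧ ∀ k : ℕ, 1 ≤ k →
    ∃ m : ℕ, Odd m ∧ (m : ℝ) ≤ C * (k : ℝ) ^ (3 / 2 + ε) ∧ QuadOrd k m := by
  obtain ⟨C, hC1, hC⟩ := pairOrd_bound (2 * ε / 3) (by positivity)
  refine ⟨6 * C ^ 2 * 4 ^ (1 + 2 * ε / 3), ?_, ?_⟩
  · have h1 : (1 : ℝ) ≤ 4 ^ (1 + 2 * ε / 3) := Real.one_le_rpow (by norm_num) (by positivity)
    have h2 : (1 : ℝ) ≤ C ^ 2 := one_le_pow₀ hC1
    nlinarith
  intro k hk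
  obtain ⟨j, k', hk', hkk⟩ := Nat.exists_eq_pow_mul_and_not_dvd (n := k) (by omega) 4 (by norm_num)
  obtain ⟨s₁, s₂, hs, hS1, hS2, hle⟩ := decomp k' hk'
  obtain ⟨m₁, ho1, hb1, hP1⟩ := hC s₁ hS1
  obtain ⟨m₂, ho2, hb2, hP2⟩ := hC s₂ hS2
  obtain ⟨m₀, ho0, hb0, hP0⟩ := pairOrd_four_pow j
  have hk'pos : 1 ≤ k' := by
    rcases Nat.eq_zero_or_pos k' with h | h
    · exact absurd (h ▸ dvd_zero 4) hk'
    · exact h
  have hk'1 : (1 : ℝ) ≤ k' := by exact_mod_cast hk'pos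
  refine ⟨m₁ * m₂ * m₀ * 3, ((ho1.mul ho2).mul ho0).mul (by decide), ?_, ?_⟩
  · have hβ : (0 : ℝ) ≤ 1 + 2 * ε / 3 := by positivity
    have h1 : (m₁ : ℝ) ≤ C * (k' : ℝ) ^ (1 + 2 * ε / 3) := by
      refine hb1.trans ?_
      gcongr
      refine max_le ?_ hk'1
      exact_mod_cast (by omega : s₁ ≤ k')
    have h2 : (m₂ : ℝ) ≤ C * (4 * (k' : ℝ) ^ (1 / 2 : ℝ)) ^ (1 + 2 * ε / 3) := by
      refine hb2.trans ?_
      gcongr
      have h3 : (1 : ℝ) ≤ (k' : ℝ) ^ (1 / 2 : ℝ) := Real.one_le_rpow hk'1 (by norm_num)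
      refine max_le ?_ (by linarith)
      have h4 : ((s₂ : ℝ)) ^ 2 ≤ 16 * k' := by exact_mod_cast hle
      rw [← Real.sqrt_eq_rpow]
      have h5 : (s₂ : ℝ) ≤ Real.sqrt (16 * k') := Real.le_sqrt_of_sq_le h4
      have h6 : Real.sqrt (16 * k') = 4 * Real.sqrt k' := by
        rw [Real.sqrt_mul (by norm_num), show (16 : ℝ) = 4 ^ 2 by norm_num, Real.sqrt_sq (by norm_num)]
      rwa [h6] at h5
    have h2' : (4 * (k' : ℝ) ^ (1 / 2 : ℝ)) ^ (1 + 2 * ε / 3) =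
        4 ^ (1 + 2 * ε / 3) * (k' : ℝ) ^ ((1 / 2 : ℝ) * (1 + 2 * ε / 3)) := by
      rw [Real.mul_rpow (by norm_num) (by positivity), ← Real.rpow_mul (by positivity)]
    rw [h2'] at h2
    have h0 : (m₀ : ℝ) ≤ 2 * (4 : ℝ) ^ j := by exact_mod_cast hb0
    have hkk' : (k : ℝ) = (4 : ℝ) ^ j * k' := by exact_mod_cast hkk
    have h4j : (1 : ℝ) ≤ (4 : ℝ) ^ j := one_le_pow₀ (by norm_num)
    have h7 : (4 : ℝ) ^ j ≤ ((4 : ℝ) ^ j) ^ (3 / 2 + ε) := by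
      conv_lhs => rw [← Real.rpow_one ((4 : ℝ) ^ j)]
      exact Real.rpow_le_rpow_of_exponent_le h4j (by linarith)
    have h8 : (k : ℝ) ^ (3 / 2 + ε) = ((4 : ℝ) ^ j) ^ (3 / 2 + ε) * (k' : ℝ) ^ (3 / 2 + ε) := by
      rw [hkk', Real.mul_rpow (by positivity) (by positivity)]
    have h9 : (k' : ℝ) ^ (1 + 2 * ε / 3) * (k' : ℝ) ^ ((1 / 2 : ℝ) * (1 + 2 * ε / 3)) =
        (k' : ℝ) ^ (3 / 2 + ε) := by
      rw [← Real.rpow_add (by linarith)]; congr 1; ring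
    push_cast
    calc (m₁ : ℝ) * m₂ * m₀ * 3
        ≤ (C * (k' : ℝ) ^ (1 + 2 * ε / 3)) *
            (C * (4 ^ (1 + 2 * ε / 3) * (k' : ℝ) ^ ((1 / 2 : ℝ) * (1 + 2 * ε / 3)))) *
            (2 * (4 : ℝ) ^ j) * 3 := by gcongr
      _ = 6 * C ^ 2 * 4 ^ (1 + 2 * ε / 3) * ((4 : ℝ) ^ j *
            ((k' : ℝ) ^ (1 + 2 * ε / 3) * (k' : ℝ) ^ ((1 / 2 : ℝ) * (1 + 2 * ε / 3)))) := by ring
      _ = 6 * C ^ 2 * 4 ^ (1 + 2 * ε / 3) * ((4 : ℝ) ^ j * (k' : ℝ) ^ (3 / 2 + ε)) := by rw [h9]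
      _ ≤ 6 * C ^ 2 * 4 ^ (1 + 2 * ε / 3) * (((4 : ℝ) ^ j) ^ (3 / 2 + ε) * (k' : ℝ) ^ (3 / 2 + ε)) := by
          gcongr
      _ = 6 * C ^ 2 * 4 ^ (1 + 2 * ε / 3) * (k : ℝ) ^ (3 / 2 + ε) := by rw [h8]
  · have hq := quadOrd_mul (quadOrd_of_pairs hP1 hP2) hP0
    rw [← hs, mul_comm, ← hkk] at hq
    exact hq

end Pool.Agent.Lib.MP_be2ccc_co
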