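import Mathlib
import Pool.Agent.Lib.MP_be2ccc_co.Weigh

/-!
# From orders `4 m` (`m` odd) to all orders divisible by four
-/

set_option autoImplicit false

namespace Pool.Agent.Lib.MP_be2ccc_co

lemma hasW_descend (k L : ℕ) (u : ℕ → ℕ) (hu : ∀ s, 2 ≤ s → s < L → Odd (u s) ∧ HasW (2 ^ s * u s) k)
    (hL : HasW (2 ^ L) k) : ∀ d s : ℕ, 2 ≤ s → s + d = L → ∀ n, 2 ^ s ∣ n →
      ∑ j ∈ Finset.Ico s L, 2 ^ j * u j ≤ n → HasW n k := by
  intro d
  induction d with
  | zero =>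
    intro s hs hsL n hn _
    obtain ⟨c, rfl⟩ := hn
    rw [add_zero] at hsL
    rw [hsL, mul_comm]
    exact hL.mul c
  | succ d ih =>
    intro s hs hsL n hn hsum
    have hsL' : s < L := by omega
    rw [Finset.sum_eq_sum_Ico_succ_bot hsL'] at hsum
    obtain ⟨hodd, hW⟩ := hu s hs hsL'
    by_cases h2 : 2 ^ (s + 1) ∣ n
    · exact ih (s + 1) (by omega) (by omega) n h2 (by omega)
    · obtain ⟨c, hc⟩ := hn
      obtain ⟨w, hw⟩ := hodd
      have hcodd : c % 2 = 1 := by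
        by_contra hcon
        apply h2
        have : c = 2 * (c / 2) := by omega
        rw [hc, this, pow_succ]
        exact mul_dvd_mul_left _ (Dvd.intro _ rfl)
      have hle : 2 ^ s * u s ≤ n := by omega
      have h3 : 2 ^ (s + 1) ∣ n - 2 ^ s * u s := by
        refine ⟨(c - u s) / 2, ?_⟩
        have hcu : u s ≤ c := by
          rw [hc] at hle
          exact Nat.le_of_mul_le_mul_left hle (by positivity)
        have h4 : c - u s = 2 * ((c - u s) / 2) := by omega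
        rw [hc, ← Nat.mul_sub]
        conv_lhs => rw [h4]
        rw [pow_succ]; ring
      have h5 := ih (s + 1) (by omega) (by omega) (n - 2 ^ s * u s) h3 (by omega)
      have h6 := hW.add h5
      rwa [Nat.add_sub_cancel' hle] at h6

/-- the orders `2^s m(k / 2^(s-4))` -/
lemma hasW_level (m : ℕ → ℕ) (hm : ∀ j, Odd (m j) ∧ HasW (4 * m j) j) (k s : ℕ) (hs : 2 ≤ s) :
    Odd (m (k / 2 ^ (s - 4))) ∧ HasW (2 ^ s * m (k / 2 ^ (s - 4))) k := by
  refine ⟨(hm _).1, ?_⟩
  by_cases h4 : 4 ≤ s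
  · obtain ⟨t, rfl⟩ : ∃ t, s = t + 4 := ⟨s - 4, by omega⟩
    rw [Nat.add_sub_cancel]
    have h := hasW_step t (k % 2 ^ t) (k / 2 ^ t) (4 * m (k / 2 ^ t)) (Nat.mod_lt _ (by positivity)).le
      (hm _).2
    rw [Nat.mod_add_div] at h
    convert h using 1
    rw [pow_add, pow_add]; ring
  · have h0 : s - 4 = 0 := by omega
    rw [h0, pow_zero, Nat.div_one]
    rcases (by omega : s = 2 ∨ s = 3) with rfl | rfl
    · exact (hm k).2
    · have := (hm k).2.mul 2
      convert this using 1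
      ring

/-- **All large orders.** -/
theorem hasW_large (m : ℕ → ℕ) (hm : ∀ j, Odd (m j) ∧ HasW (4 * m j) j) (k L v n : ℕ) (hv : 2 ≤ v)
    (hL : k ≤ 2 ^ L) (hvL : v ≤ L) (hn : 2 ^ v ∣ n)
    (hsum : ∑ j ∈ Finset.Ico v L, 2 ^ j * m (k / 2 ^ (j - 4)) ≤ n) : HasW n k :=
  hasW_descend k L (fun j => m (k / 2 ^ (j - 4))) (fun s hs _ => hasW_level m hm k s hs)
    (hasW_two_pow L k hL) (L - v) v hv (by omega) n hn hsum

/-- orders divisible by a power of two which is at least the weight -/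
theorem hasW_small (k v n : ℕ) (hv : k ≤ 2 ^ v) (hn : 2 ^ v ∣ n) : HasW n k := by
  obtain ⟨c, rfl⟩ := hn
  rw [mul_comm]
  exact (hasW_two_pow v k hv).mul c

end Pool.Agent.Lib.MP_be2ccc_co
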