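import Mathlib
import Pool.Agent.Lib.MP_be2ccc_co.Bound
import Pool.Agent.Lib.MP_be2ccc_co.Orders

/-!
# The main theorem
-/

set_option autoImplicit false

namespace Pool.Agent.Lib.MP_be2ccc_co

lemma quadOrd_zero : QuadOrd 0 1 := by
  simpa using quadOrd_of_pairs pairOrd_zero pairOrd_zero

/-- the sequence of odd numbers `m j` with a weighing matrix of order `4 m j` and weight `j`. -/
lemma exists_seq (ε : ℝ) (hε : 0 < ε) : ∃ (C : ℝ) (m : ℕ → ℕ), 1 ≤ C ∧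
    (∀ j, Odd (m j) ∧ HasW (4 * m j) j) ∧ ∀ j, 1 ≤ j → (m j : ℝ) ≤ C * (j : ℝ) ^ (3 / 2 + ε) := by
  obtain ⟨C, hC1, hC⟩ := quadOrd_bound ε hε
  have h : ∀ j : ℕ, ∃ m : ℕ, (Odd m ∧ HasW (4 * m) j) ∧ (1 ≤ j → (m : ℝ) ≤ C * (j : ℝ) ^ (3 / 2 + ε)) := by
    intro j
    rcases Nat.eq_zero_or_pos j with rfl | hj
    · exact ⟨1, ⟨odd_one, quadOrd_zero.hasW⟩, fun h => absurd h (by norm_num)⟩
    · obtain ⟨m, h1, h2, h3⟩ := hC j hj
      exact ⟨m, ⟨h1, h3.hasW⟩, fun _ => h2⟩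
  choose m hm using h
  exact ⟨C, m, hC1, fun j => (hm j).1, fun j => (hm j).2⟩

theorem main (ε : ℝ) (hε : 0 < ε) : ∃ c : ℝ, 0 < c ∧ ∀ v n k : ℕ, 2 ≤ v → 0 < n → 2 ^ v ∣ n →
    (k : ℝ) ≤ c * ((2 : ℝ) ^ ((v : ℝ) / 2) * n) ^ (2 / 3 - ε) → HasW n k := by
  obtain ⟨C, m, hC1, hm, hmb⟩ := exists_seq ε hε
  set β : ℝ := 3 / 2 + ε with hβ
  have h16 : (1 : ℝ) ≤ 16 ^ β := Real.one_le_rpow (by norm_num) (by rw [hβ]; linarith)
  set D : ℝ := 4 * C * 16 ^ β with hD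
  have hD1 : 1 ≤ D := by rw [hD]; nlinarith
  refine ⟨D⁻¹, by positivity, ?_⟩
  intro v n k hv hn hvn hk
  by_cases hL : Nat.clog 2 k ≤ v
  · have h1 : k ≤ 2 ^ v :=
      (Nat.le_pow_clog (by norm_num) k).trans (Nat.pow_le_pow_right (by norm_num) hL)
    exact hasW_small k v n h1 hvn
  push Not at hL
  set L := Nat.clog 2 k with hLdef
  refine hasW_large m hm k L v n hv (Nat.le_pow_clog (by norm_num) k) hL.le hvn ?_
  set X : ℝ := (2 : ℝ) ^ ((v : ℝ) / 2) * n with hX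
  have hn1 : (1 : ℝ) ≤ n := by exact_mod_cast hn
  have h2v : (1 : ℝ) ≤ (2 : ℝ) ^ ((v : ℝ) / 2) := Real.one_le_rpow (by norm_num) (by positivity)
  have hX1 : 1 ≤ X := by rw [hX]; nlinarith
  set ρ : ℝ := (2 : ℝ) ^ (-(1 / 2) : ℝ) with hρ
  have hρ0 : 0 < ρ := by positivity
  have hρsq : ρ * ρ = 1 / 2 := by
    rw [hρ, ← Real.rpow_add (by norm_num)]; norm_num [Real.rpow_neg_one]
  have hρ1 : ρ ≤ 3 / 4 := by nlinarith
  have hρpow : ∀ j : ℕ, ρ ^ j = ((2 : ℝ) ^ j) ^ (-(1 / 2) : ℝ) := by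
    intro j
    rw [hρ, ← Real.rpow_natCast, ← Real.rpow_mul (by norm_num), ← Real.rpow_natCast (2 : ℝ) j,
      ← Real.rpow_mul (by norm_num), mul_comm]
  have hk1 : 1 ≤ k := by
    rcases Nat.eq_zero_or_pos k with h | h
    · exfalso; rw [hLdef, h] at hL; simp at hL
    · exact h
  have hterm : ∀ j ∈ Finset.Ico v L, ((2 ^ j * m (k / 2 ^ (j - 4)) : ℕ) : ℝ) ≤
      C * 16 ^ β * (k : ℝ) ^ β * ρ ^ j := by
    intro j hj
    rw [Finset.mem_Ico] at hj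
    have h2j : 2 ^ j < k := Nat.pow_lt_of_lt_clog hj.2
    have hpos : 1 ≤ k / 2 ^ (j - 4) := by
      rw [Nat.one_le_div_iff (by positivity)]
      exact (Nat.pow_le_pow_right (by norm_num) (Nat.sub_le j 4)).trans h2j.le
    have h1 := hmb _ hpos
    have h2 : ((k / 2 ^ (j - 4) : ℕ) : ℝ) ≤ 16 * k / 2 ^ j := by
      refine Nat.cast_div_le.trans ?_
      push_cast
      rw [div_le_div_iff₀ (by positivity) (by positivity)]
      have h3 : (2 : ℝ) ^ j ≤ 16 * 2 ^ (j - 4) := by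
        have : (2 : ℝ) ^ j ≤ 2 ^ (4 + (j - 4)) := pow_le_pow_right₀ (by norm_num) (by omega)
        rw [pow_add] at this
        norm_num at this
        exact this
      have hk0 : (0 : ℝ) ≤ k := by positivity
      nlinarith
    have h4 : ((k / 2 ^ (j - 4) : ℕ) : ℝ) ^ β ≤ 16 ^ β * (k : ℝ) ^ β * ((2 : ℝ) ^ j) ^ (-β) := by
      calc ((k / 2 ^ (j - 4) : ℕ) : ℝ) ^ β ≤ (16 * k / 2 ^ j) ^ β :=
            Real.rpow_le_rpow (by positivity) h2 (by rw [hβ]; linarith)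
        _ = 16 ^ β * (k : ℝ) ^ β * ((2 : ℝ) ^ j) ^ (-β) := by
            rw [Real.div_rpow (by positivity) (by positivity), Real.mul_rpow (by norm_num) (by positivity),
              Real.rpow_neg (by positivity), div_eq_mul_inv]
    have h5 : (2 : ℝ) ^ j * ((2 : ℝ) ^ j) ^ (-β) ≤ ρ ^ j := by
      rw [hρpow]
      have h2j1 : (1 : ℝ) ≤ 2 ^ j := one_le_pow₀ (by norm_num)
      calc (2 : ℝ) ^ j * ((2 : ℝ) ^ j) ^ (-β) = ((2 : ℝ) ^ j) ^ (1 + -β) := by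
            rw [Real.rpow_add (by positivity), Real.rpow_one]
        _ ≤ ((2 : ℝ) ^ j) ^ (-(1 / 2) : ℝ) := by
            apply Real.rpow_le_rpow_of_exponent_le h2j1
            rw [hβ]; linarith
    push_cast
    calc (2 : ℝ) ^ j * (m (k / 2 ^ (j - 4)) : ℝ)
        ≤ (2 : ℝ) ^ j * (C * ((k / 2 ^ (j - 4) : ℕ) : ℝ) ^ β) := by gcongr
      _ ≤ (2 : ℝ) ^ j * (C * (16 ^ β * (k : ℝ) ^ β * ((2 : ℝ) ^ j) ^ (-β))) := by gcongr
      _ = C * 16 ^ β * (k : ℝ) ^ β * ((2 : ℝ) ^ j * ((2 : ℝ) ^ j) ^ (-β)) := by ring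
      _ ≤ C * 16 ^ β * (k : ℝ) ^ β * ρ ^ j := by gcongr
  have hsumR : ((∑ j ∈ Finset.Ico v L, 2 ^ j * m (k / 2 ^ (j - 4)) : ℕ) : ℝ) ≤ D * (k : ℝ) ^ β * ρ ^ v := by
    rw [Nat.cast_sum]
    calc ∑ j ∈ Finset.Ico v L, ((2 ^ j * m (k / 2 ^ (j - 4)) : ℕ) : ℝ)
        ≤ ∑ j ∈ Finset.Ico v L, C * 16 ^ β * (k : ℝ) ^ β * ρ ^ j := Finset.sum_le_sum hterm
      _ = C * 16 ^ β * (k : ℝ) ^ β * ∑ j ∈ Finset.Ico v L, ρ ^ j := by rw [Finset.mul_sum]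
      _ ≤ C * 16 ^ β * (k : ℝ) ^ β * (ρ ^ v / (1 - ρ)) := by
          gcongr
          exact geom_sum_Ico_le_of_lt_one hρ0.le (by linarith)
      _ ≤ C * 16 ^ β * (k : ℝ) ^ β * (4 * ρ ^ v) := by
          gcongr
          rw [div_le_iff₀ (by linarith)]
          have : 0 < ρ ^ v := by positivity
          nlinarith
      _ = D * (k : ℝ) ^ β * ρ ^ v := by rw [hD]; ring
  have hkβ : (k : ℝ) ^ β ≤ D⁻¹ * X := by
    calc (k : ℝ) ^ β ≤ (D⁻¹ * X ^ (2 / 3 - ε)) ^ β :=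
          Real.rpow_le_rpow (by positivity) hk (by rw [hβ]; linarith)
      _ = (D⁻¹) ^ β * X ^ ((2 / 3 - ε) * β) := by
          rw [Real.mul_rpow (by positivity) (by positivity), ← Real.rpow_mul (by positivity)]
      _ ≤ D⁻¹ * X := by
          apply mul_le_mul _ _ (by positivity) (by positivity)
          · conv_rhs => rw [← Real.rpow_one D⁻¹]
            apply Real.rpow_le_rpow_of_exponent_ge (by positivity) (inv_le_one_of_one_le₀ hD1)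
            rw [hβ]; linarith
          · conv_rhs => rw [← Real.rpow_one X]
            apply Real.rpow_le_rpow_of_exponent_le hX1
            rw [hβ]; nlinarith
  have hρv : ρ ^ v * (2 : ℝ) ^ ((v : ℝ) / 2) = 1 := by
    rw [hρ, ← Real.rpow_natCast, ← Real.rpow_mul (by norm_num), ← Real.rpow_add (by norm_num)]
    have : -(1 / 2) * (v : ℝ) + (v : ℝ) / 2 = 0 := by ring
    rw [this, Real.rpow_zero]
  have hfin : D * (k : ℝ) ^ β * ρ ^ v ≤ n := by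
    calc D * (k : ℝ) ^ β * ρ ^ v ≤ D * (D⁻¹ * X) * ρ ^ v := by gcongr
      _ = X * ρ ^ v := by rw [← mul_assoc, mul_inv_cancel₀ (by positivity), one_mul]
      _ = (ρ ^ v * (2 : ℝ) ^ ((v : ℝ) / 2)) * n := by rw [hX]; ring
      _ = n := by rw [hρv, one_mul]
  exact_mod_cast hsumR.trans hfin

end Pool.Agent.Lib.MP_be2ccc_co
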